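import Mathlib
import Pool.Agent.X191.CP.NearD
import Pool.Agent.W66.ST

set_option autoImplicit false

/-!
# Upper bounds for pairs of levels, base `b`
-/

namespace Pool.Agent.X191.CP

open Finset Filter Topology MeasureTheory
open Pool.Agent.W66S (shift_window)
open Pool.Agent.H305R2 (roughPart roughPart_prime SM bounds ff NN measurable_ff measurable_NN
  ff_nonneg ff_le_one integrableOn_ff log_nat_tendsto)

/-- weight of a level -/
noncomputable def w (p : ℕ) : ℝ := Real.log p / p

lemma w_nonneg (p : ℕ) : 0 ≤ w p := div_nonneg (Real.log_natCast_nonneg p) (Nat.cast_nonneg p)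

/-- both levels `p`, `q` are hit and the block of digits between them is not zero -/
noncomputable def fd (b p q : ℕ) (t : ℝ) : ℝ :=
  if NN (Real.log b * q + t) = b ^ (q - p) * NN (Real.log b * p + t) then 0 else
    ff p (Real.log b * p + t) * ff q (Real.log b * q + t)

lemma fd_nonneg (b p q : ℕ) (t : ℝ) : 0 ≤ fd b p q t := by
  unfold fd
  split_ifs
  · exact le_rfl
  · exact mul_nonneg (ff_nonneg _ _) (ff_nonneg _ _)

lemma fd_le (b p q : ℕ) (t : ℝ) :
    fd b p q t ≤ ff p (Real.log b * p + t) * ff q (Real.log b * q + t) := by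
  unfold fd
  split_ifs
  · exact mul_nonneg (ff_nonneg _ _) (ff_nonneg _ _)
  · exact le_rfl

lemma measurable_prod (b p q : ℕ) :
    Measurable (fun t : ℝ => ff p (Real.log b * p + t) * ff q (Real.log b * q + t)) :=
  ((measurable_ff p).comp (measurable_id.const_add _)).mul
    ((measurable_ff q).comp (measurable_id.const_add _))

lemma measurable_fd (b p q : ℕ) : Measurable (fd b p q) := by
  unfold fd
  refine Measurable.ite ?_ measurable_const (measurable_prod b p q)
  have m1 : Measurable (fun t : ℝ => (NN (Real.log b * q + t), NN (Real.log b * p + t))) :=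
    (measurable_NN.comp (measurable_id.const_add _)).prodMk
      (measurable_NN.comp (measurable_id.const_add _))
  exact m1 (MeasurableSet.of_discrete (s := {x : ℕ × ℕ | x.1 = b ^ (q - p) * x.2}))

lemma prod_le_one (b p q : ℕ) (t : ℝ) :
    ff p (Real.log b * p + t) * ff q (Real.log b * q + t) ≤ 1 :=
  mul_le_one₀ (ff_le_one _ _) (ff_nonneg _ _) (ff_le_one _ _)

lemma integrableOn_prod (b p q : ℕ) (b0 : ℝ) : IntegrableOn (fun t : ℝ =>
    ff p (Real.log b * p + t) * ff q (Real.log b * q + t)) (Set.Ioc b0 (b0 + 1)) := by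
  refine Measure.integrableOn_of_bounded (M := 1) (by simp)
    (measurable_prod b p q).aestronglyMeasurable (Eventually.of_forall fun t => ?_)
  rw [Real.norm_eq_abs, abs_of_nonneg (mul_nonneg (ff_nonneg _ _) (ff_nonneg _ _))]
  exact prod_le_one b p q t

lemma integrableOn_fd (b p q : ℕ) (b0 : ℝ) : IntegrableOn (fd b p q) (Set.Ioc b0 (b0 + 1)) := by
  refine Measure.integrableOn_of_bounded (M := 1) (by simp)
    (measurable_fd b p q).aestronglyMeasurable (Eventually.of_forall fun t => ?_)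
  rw [Real.norm_eq_abs, abs_of_nonneg (fd_nonneg b p q t)]
  exact (fd_le b p q t).trans (prod_le_one b p q t)

/-- a zero block of digits gives the same prime -/
lemma same {b p q N h : ℕ} (hpq : p < q) (hbq : b ≤ q) (h1 : (roughPart p N).Prime)
    (h2 : (roughPart q (b ^ h * N)).Prime) : roughPart q (b ^ h * N) = roughPart p N := by
  obtain ⟨g1, u, hu, e1⟩ := roughPart_prime h1
  obtain ⟨g2, v, hv, e2⟩ := roughPart_prime h2
  set s := roughPart q (b ^ h * N) with hs
  set r := roughPart p N with hr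
  have d1 : s ∣ b ^ h * N := Dvd.intro_left v e2.symm
  rcases (Nat.Prime.dvd_mul h2).1 d1 with d2 | d2
  · exfalso
    have d3 := h2.dvd_of_dvd_pow d2
    rcases Nat.eq_zero_or_pos b with hb | hb
    · subst hb
      rcases Nat.eq_zero_or_pos h with h0 | h0
      · subst h0
        rw [pow_zero] at d2
        exact h2.one_lt.ne' (Nat.dvd_one.1 d2)
      · rw [zero_pow h0.ne', zero_mul] at e2
        have : v = 0 ∨ s = 0 := by
          rcases Nat.mul_eq_zero.1 e2.symm with h3 | h3
          · exact Or.inl h3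
          · exact Or.inr h3
        rcases this with h3 | h3
        · exact (Pool.Agent.H305R2.SM_pos hv).ne' h3
        · exact h2.ne_zero h3
    · have := Nat.le_of_dvd hb d3
      omega
  · rw [e1] at d2
    rcases (Nat.Prime.dvd_mul h2).1 d2 with d3 | d3
    · exfalso
      have : s < p + 1 := hu.2 s ((Nat.mem_primeFactorsList
        (Pool.Agent.H305R2.SM_pos hu).ne').2 ⟨h2, d3⟩)
      omega
    · exact (Nat.prime_dvd_prime_iff_eq h2 h1).1 d3

/-- pairs with `2 p ≤ q` -/
lemma far_bound {b : ℕ} (hb : 2 ≤ b) (b0 : ℝ) : ∃ K : ℝ, 0 < K ∧ ∃ P : ℕ, ∀ p ≥ P, ∀ q : ℕ, 2 * p ≤ q →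
    ∫ t in Set.Ioc b0 (b0 + 1), ff p (Real.log b * p + t) * ff q (Real.log b * q + t) ≤
      K * (w p * w q) := by
  have ha : 0 < Real.log b := Real.log_pos (by exact_mod_cast hb)
  set a := Real.log b with hadef
  obtain ⟨K2, hK2, P2, h2⟩ := Pool.Agent.H447R2.ML.pair_bound_sh (a := a) (a0 := b0 - 1) (a1 := b0 + 2)
    (b0 := b0) (b1 := b0 + 1) ha (by linarith) (by linarith)
  refine ⟨4 * K2, by positivity, ?_⟩
  have hgap : ∀ᶠ q : ℕ in atTop, 64 / a * (Real.log q * Real.log (Real.log q)) ≤ q / 2 := by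
    have h1 : ∀ᶠ x : ℝ in atTop, 64 / a * (Real.log x * Real.log (Real.log x)) ≤ x / 2 := by
      have h2 : ∀ᶠ x : ℝ in atTop, (Real.log x) ^ 2 ≤ 1 / (2 * (64 / a)) * x := by
        have h3 := (Real.isLittleO_pow_log_id_atTop (n := 2)).bound
          (show (0 : ℝ) < 1 / (2 * (64 / a)) by positivity)
        filter_upwards [h3, eventually_gt_atTop 0] with x hx hx0
        rw [Real.norm_eq_abs, Real.norm_eq_abs, abs_of_nonneg (by positivity)] at hx
        simpa [abs_of_pos hx0] using hx
      filter_upwards [h2, Real.tendsto_log_atTop.eventually_ge_atTop 1, eventually_gt_atTop 0]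
        with x hx hx1 hx0
      have h4 : Real.log (Real.log x) ≤ Real.log x := by
        have := Real.log_le_sub_one_of_pos (show 0 < Real.log x by linarith)
        linarith
      calc 64 / a * (Real.log x * Real.log (Real.log x)) ≤ 64 / a * (Real.log x * Real.log x) := by gcongr
        _ = 64 / a * (Real.log x) ^ 2 := by ring
        _ ≤ 64 / a * (1 / (2 * (64 / a)) * x) := by gcongr
        _ = x / 2 := by field_simp
    exact tendsto_natCast_atTop_atTop.eventually h1
  obtain ⟨P3, hP3⟩ := eventually_atTop.1 hgap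
  refine ⟨P2 + P3 + 1, fun p hp q hpq => ?_⟩
  have hp1 : (1 : ℝ) ≤ p := by exact_mod_cast (by omega : 1 ≤ p)
  have hpq' : 2 * (p : ℝ) ≤ q := by exact_mod_cast hpq
  have hSh : ∀ m : ℕ, Pool.Agent.H447R2.ML.Sh a (b0 - 1) (b0 + 2) m (fun t => a * m + t)
      (fun _ => 1) := by
    intro m
    refine ⟨fun t _ => ?_, fun t _ => ?_, fun t _ => ?_⟩
    · rw [sub_self, abs_zero]; positivity
    · simpa using (hasDerivAt_id t).const_add (a * (m : ℝ))
    · rw [sub_self, abs_zero]; positivity
  have h3 := h2 p q (by omega) (by omega) _ _ _ _ (hSh p) (hSh q) (by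
    have := hP3 q (by omega)
    linarith) b0 (b0 + 1) le_rfl (by linarith) le_rfl
  have hwp : 0 ≤ Real.log p / p := div_nonneg (Real.log_natCast_nonneg p) (Nat.cast_nonneg p)
  have hlq : 0 ≤ Real.log q := Real.log_natCast_nonneg q
  have hq0 : (0 : ℝ) < q := by linarith
  refine h3.trans ?_
  have h6 : (b0 + 1 - b0) + 1 / (p : ℝ) ≤ 2 := by
    have : 1 / (p : ℝ) ≤ 1 := by rw [div_le_one (by linarith)]; exact hp1
    linarith
  have h7 : Real.log q / (q - p) ≤ 2 * (Real.log q / q) := by
    calc Real.log q / (q - p) ≤ Real.log q / (q / 2) :=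
          div_le_div_of_nonneg_left hlq (by positivity) (by linarith)
      _ = _ := by field_simp
  have h8 : 0 ≤ Real.log q / (q - p) := div_nonneg hlq (by linarith)
  calc K2 * ((b0 + 1 - b0) + 1 / p) * (Real.log p / p) * (Real.log q / (q - p)) ≤
        K2 * 2 * (Real.log p / p) * (2 * (Real.log q / q)) := by gcongr
    _ = _ := by unfold w; ring

/-- the single level -/
lemma one_bound {b : ℕ} (hb : 2 ≤ b) (b0 : ℝ) : ∃ K : ℝ, 0 < K ∧ ∃ P : ℕ, ∀ q ≥ P,
    ∫ t in Set.Ioc b0 (b0 + 1), ff q (Real.log b * q + t) ≤ K * w q := by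
  have ha : 0 < Real.log b := Real.log_pos (by exact_mod_cast hb)
  obtain ⟨K, hK, hev⟩ := bounds (c := Real.log b / 2) (by positivity)
  have hlarge : ∀ᶠ p : ℕ in atTop, (|b0| + 1) * 2 / Real.log b < p :=
    tendsto_natCast_atTop_atTop.eventually_gt_atTop _
  obtain ⟨P, hP⟩ := eventually_atTop.1 (hev.and (hlarge.and (eventually_ge_atTop 1)))
  refine ⟨2 * K, by positivity, P, fun q hq => ?_⟩
  obtain ⟨⟨_, h2, _, _⟩, h3, h4⟩ := hP q hq
  rw [div_lt_iff₀ ha] at h3
  have h5 := neg_abs_le b0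
  have hq1 : (1 : ℝ) ≤ q := by exact_mod_cast h4
  rw [shift_window (fun u => ff q u) (Real.log b * q) b0]
  have h6 := h2 (Real.log b * q + b0) (Real.log b * q + b0 + 1) (by linarith) (by linarith)
  refine h6.trans ?_
  have h7 : (Real.log b * q + b0 + 1 - (Real.log b * q + b0)) + 1 / (q : ℝ) ≤ 2 := by
    have : 1 / (q : ℝ) ≤ 1 := by rw [div_le_one (by linarith)]; exact hq1
    linarith
  have h8 := w_nonneg q
  unfold w at h8 ⊢
  calc _ ≤ K * 2 * (Real.log q / q) := by gcongr
    _ = _ := by ring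

lemma w_half {p q : ℕ} (hp : 1 ≤ p) (hpq : p ≤ q) (hq : q ≤ 2 * p) : w p ≤ 2 * w q := by
  have h1 : (1 : ℝ) ≤ p := by exact_mod_cast hp
  have h2 : (p : ℝ) ≤ q := by exact_mod_cast hpq
  have h3 : (q : ℝ) ≤ 2 * p := by exact_mod_cast hq
  have h4 : Real.log p ≤ Real.log q := Real.log_le_log (by linarith) h2
  have h5 : 0 ≤ Real.log p := Real.log_nonneg h1
  unfold w
  rw [← mul_div_assoc, div_le_div_iff₀ (by linarith) (by linarith)]
  nlinarith

/-- **Pairs with a nonzero block between the levels.** -/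
theorem fd_bound {b : ℕ} (hb : 2 ≤ b) (b0 : ℝ) : ∃ K : ℝ, 0 < K ∧ ∃ P : ℕ, ∀ p ≥ P, ∀ q : ℕ, p < q →
    ∫ t in Set.Ioc b0 (b0 + 1), fd b p q t ≤ K * (w p * w q) := by
  have hlb : 0 < Real.log b := Real.log_pos (by exact_mod_cast hb)
  obtain ⟨K1, hK1, P1, h1⟩ := far_bound hb b0
  obtain ⟨K2, hK2, hev⟩ := near_distinct hb
  obtain ⟨P2, hP2⟩ := eventually_atTop.1 hev
  have hlarge : ∀ᶠ p : ℕ in atTop, |b0| * 2 / Real.log b < p :=
    tendsto_natCast_atTop_atTop.eventually_gt_atTop _
  obtain ⟨P3, hP3⟩ := eventually_atTop.1 hlarge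
  refine ⟨K1 + 2 * K2, by positivity, P1 + P2 + P3 + 1, fun p hp q hpq => ?_⟩
  have hwp := w_nonneg p
  have hwq := w_nonneg q
  have hww := mul_nonneg hwp hwq
  rcases le_total (2 * p) q with hq2 | hq2
  · calc ∫ t in Set.Ioc b0 (b0 + 1), fd b p q t ≤
        ∫ t in Set.Ioc b0 (b0 + 1), ff p (Real.log b * p + t) * ff q (Real.log b * q + t) :=
          setIntegral_mono (integrableOn_fd b p q b0) (integrableOn_prod b p q b0) (fd_le b p q)
      _ ≤ K1 * (w p * w q) := h1 p (by omega) q hq2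
      _ ≤ _ := by nlinarith
  · have hY : Real.log b / 2 * p ≤ Real.log b * p + b0 := by
      have h5 := hP3 p (by omega)
      rw [div_lt_iff₀ hlb] at h5
      have := neg_abs_le b0
      linarith
    have h5 := hP2 p (by omega) (q - p) (by omega) (Real.log b * p + b0) hY
    have e : ∫ t in Set.Ioc b0 (b0 + 1), fd b p q t =
        ∫ y in Set.Ioc (Real.log b * p + b0) (Real.log b * p + b0 + 1),
          (if NN (y + (q - p : ℕ) * Real.log b) = b ^ (q - p) * NN y then 0 else
            ff p y * ff (p + (q - p)) (y + (q - p : ℕ) * Real.log b)) := by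
      rw [← shift_window]
      refine setIntegral_congr_fun measurableSet_Ioc fun t _ => ?_
      have e1 : p + (q - p) = q := by omega
      have e2 : Real.log b * p + t + ((q - p : ℕ) : ℝ) * Real.log b = Real.log b * q + t := by
        rw [Nat.cast_sub hpq.le]
        ring
      simp only [fd, e1, e2]
    rw [e]
    refine h5.trans ?_
    have h6 := w_half (by omega) hpq.le hq2
    calc K2 * (Real.log p / p) ^ 2 = K2 * (w p * w p) := by unfold w; ring
      _ ≤ K2 * (w p * (2 * w q)) := by gcongr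
      _ ≤ _ := by nlinarith

/-- **All pairs.** -/
theorem ff_bound {b : ℕ} (hb : 2 ≤ b) (b0 : ℝ) : ∃ K : ℝ, 0 < K ∧ ∃ P : ℕ, ∀ p ≥ P, ∀ q : ℕ, p < q →
    ∫ t in Set.Ioc b0 (b0 + 1), ff p (Real.log b * p + t) * ff q (Real.log b * q + t) ≤
      K * (w p * w q + ((b : ℝ) ^ (q - p))⁻¹ * w p) := by
  have hlb : 0 < Real.log b := Real.log_pos (by exact_mod_cast hb)
  obtain ⟨K1, hK1, P1, h1⟩ := far_bound hb b0
  obtain ⟨K2, hK2, hev⟩ := Pool.Agent.W66.near hb
  obtain ⟨P2, hP2⟩ := eventually_atTop.1 hev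
  have hlarge : ∀ᶠ p : ℕ in atTop, |b0| * 2 / Real.log b < p :=
    tendsto_natCast_atTop_atTop.eventually_gt_atTop _
  obtain ⟨P3, hP3⟩ := eventually_atTop.1 hlarge
  refine ⟨K1 + 2 * K2, by positivity, P1 + P2 + P3 + 1, fun p hp q hpq => ?_⟩
  have hwp := w_nonneg p
  have hwq := w_nonneg q
  have hww := mul_nonneg hwp hwq
  have hbw : 0 ≤ ((b : ℝ) ^ (q - p))⁻¹ * w p := by positivity
  rcases le_total (2 * p) q with hq2 | hq2
  · calc _ ≤ K1 * (w p * w q) := h1 p (by omega) q hq2
      _ ≤ _ := by nlinarith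
  · have hY : Real.log b / 2 * p ≤ Real.log b * p + b0 := by
      have h5 := hP3 p (by omega)
      rw [div_lt_iff₀ hlb] at h5
      have := neg_abs_le b0
      linarith
    have h5 := hP2 p (by omega) (q - p) (by omega) (Real.log b * p + b0) hY
    have e : ∫ t in Set.Ioc b0 (b0 + 1), ff p (Real.log b * p + t) * ff q (Real.log b * q + t) =
        ∫ y in Set.Ioc (Real.log b * p + b0) (Real.log b * p + b0 + 1),
            ff p y * ff (p + (q - p)) (y + (q - p : ℕ) * Real.log b) := by
      rw [← shift_window]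
      refine setIntegral_congr_fun measurableSet_Ioc fun t _ => ?_
      have e1 : p + (q - p) = q := by omega
      have e2 : Real.log b * p + t + ((q - p : ℕ) : ℝ) * Real.log b = Real.log b * q + t := by
        rw [Nat.cast_sub hpq.le]
        ring
      simp only [e1, e2]
    rw [e]
    refine h5.trans ?_
    have h6 := w_half (by omega) hpq.le hq2
    calc K2 * ((Real.log p / p) ^ 2 + ((b : ℝ) ^ (q - p))⁻¹ * (Real.log p / p)) =
          K2 * (w p * w p + ((b : ℝ) ^ (q - p))⁻¹ * w p) := by unfold w; ring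
      _ ≤ K2 * (w p * (2 * w q) + ((b : ℝ) ^ (q - p))⁻¹ * w p) := by gcongr
      _ ≤ _ := by nlinarith

end Pool.Agent.X191.CP
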