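import Mathlib
import Pool.Agent.Helper601.BT
import Pool.Agent.X191.CP.Bound

set_option autoImplicit false

/-!
# Sums over close pairs of primes
-/

namespace Pool.Agent.X191.CP

open Finset Filter Topology MeasureTheory

lemma bt_card : ∃ C : ℝ, 1 ≤ C ∧ ∀ a N : ℕ, 2 ≤ N →
    (((Ioc a (a + N)).filter Nat.Prime).card : ℝ) ≤ C * N / Real.log N := by
  obtain ⟨C, hC, h⟩ := Pool.Agent.Helper601.brun_titchmarsh
  refine ⟨C, hC, fun a N hN => ?_⟩
  have h1 := h (a + 1) 1 N hN (Or.inl rfl)
  refine le_trans ?_ h1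
  have hsub : (Ioc a (a + N)).filter Nat.Prime ⊆
      ((range N).filter (fun k => (a + 1 + k * 1).Prime)).image (fun k => a + 1 + k) := by
    intro r hr
    rw [mem_filter, mem_Ioc] at hr
    rw [mem_image]
    refine ⟨r - (a + 1), ?_, by omega⟩
    rw [mem_filter, mem_range]
    refine ⟨by omega, ?_⟩
    have e : a + 1 + (r - (a + 1)) * 1 = r := by omega
    rw [e]
    exact hr.2
  exact_mod_cast (Finset.card_le_card hsub).trans Finset.card_image_le

lemma summable_dyadic {g : ℕ → ℝ} (hg : ∀ n, 0 ≤ g n) {c : ℕ → ℝ} (hc : Summable c)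
    (h : ∀ j, ∑ n ∈ Ioc (2 ^ j) (2 ^ j + 2 ^ j), g n ≤ c j) : Summable g := by
  have hc0 : ∀ j, 0 ≤ c j := fun j => (Finset.sum_nonneg fun n _ => hg n).trans (h j)
  have key : ∀ J : ℕ, ∑ n ∈ range (2 ^ J + 1), g n ≤ g 0 + g 1 + ∑ j ∈ range J, c j := by
    intro J
    induction J with
    | zero => simp [Finset.sum_range_succ]
    | succ J ih =>
      have e : range (2 ^ (J + 1) + 1) = range (2 ^ J + 1) ∪ Ioc (2 ^ J) (2 ^ J + 2 ^ J) := by
        ext x
        simp only [mem_union, mem_range, mem_Ioc, pow_succ]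
        omega
      have hd : Disjoint (range (2 ^ J + 1)) (Ioc (2 ^ J) (2 ^ J + 2 ^ J)) := by
        rw [Finset.disjoint_left]
        intro x hx hx2
        rw [mem_range] at hx
        rw [mem_Ioc] at hx2
        omega
      rw [e, Finset.sum_union hd, Finset.sum_range_succ (fun j => c j)]
      linarith [h J]
  refine summable_of_sum_range_le hg (c := g 0 + g 1 + ∑' j, c j) fun n => ?_
  have h1 : n ≤ 2 ^ n + 1 := (Nat.lt_two_pow_self).le.trans (Nat.le_succ _)
  calc ∑ i ∈ range n, g i ≤ ∑ i ∈ range (2 ^ n + 1), g i :=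
        Finset.sum_le_sum_of_subset_of_nonneg (Finset.range_subset_range.2 h1) fun i _ _ => hg i
    _ ≤ g 0 + g 1 + ∑ j ∈ range n, c j := key n
    _ ≤ _ := by
      have := hc.sum_le_tsum (range n) fun j _ => hc0 j
      linarith

/-- `∑ 1 / (p (log p)^ε)` over the primes converges -/
theorem prime_sum {ε : ℝ} (hε : 0 < ε) :
    Summable (fun p : ℕ => if p.Prime then 1 / ((p : ℝ) * Real.log p ^ ε) else 0) := by
  obtain ⟨C, hC, hbt⟩ := bt_card
  have hl2 : 0 < Real.log 2 := Real.log_pos (by norm_num)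
  have hg : ∀ n : ℕ, 0 ≤ (if n.Prime then 1 / ((n : ℝ) * Real.log n ^ ε) else 0 : ℝ) := by
    intro n
    split_ifs
    · have := Real.log_natCast_nonneg n
      positivity
    · exact le_rfl
  set c : ℕ → ℝ := fun j => if j = 0 then 1 / (2 * Real.log 2 ^ ε) else
    C / (Real.log 2 * Real.log 2 ^ ε) * (1 / (j : ℝ) ^ (1 + ε)) with hcdef
  have hcs : Summable c := by
    have h1 : Summable (fun j : ℕ => C / (Real.log 2 * Real.log 2 ^ ε) * (1 / (j : ℝ) ^ (1 + ε))) :=
      (Real.summable_one_div_nat_rpow.2 (by linarith)).mul_left _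
    refine (summable_congr_cofinite ?_).2 h1
    refine (Set.finite_singleton (0 : ℕ)).subset ?_
    intro j hj
    by_contra h0
    apply hj
    simp only [Set.mem_singleton_iff] at h0
    simp only [Set.mem_ofPred_eq, hcdef, if_neg h0]
  refine summable_dyadic hg hcs fun j => ?_
  rw [← Finset.sum_filter]
  rcases Nat.eq_zero_or_pos j with h0 | h0
  · subst h0
    have e : (Ioc (2 ^ 0) (2 ^ 0 + 2 ^ 0)).filter Nat.Prime = {2} := by decide
    rw [e, Finset.sum_singleton]
    simp [hcdef]
  · have hj : (1 : ℝ) ≤ j := by exact_mod_cast h0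
    have hp2 : (2 : ℕ) ≤ 2 ^ j := by
      calc 2 = 2 ^ 1 := by norm_num
        _ ≤ 2 ^ j := Nat.pow_le_pow_right (by norm_num) h0
    have hlj : Real.log ((2 ^ j : ℕ) : ℝ) = j * Real.log 2 := by push_cast; rw [Real.log_pow]
    have hcard := hbt (2 ^ j) (2 ^ j) hp2
    rw [hlj] at hcard
    have hterm : ∀ n ∈ (Ioc (2 ^ j) (2 ^ j + 2 ^ j)).filter Nat.Prime,
        1 / ((n : ℝ) * Real.log n ^ ε) ≤ 1 / (((2 ^ j : ℕ) : ℝ) * (j * Real.log 2) ^ ε) := by
      intro n hn
      rw [mem_filter, mem_Ioc] at hn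
      have hn1 : ((2 ^ j : ℕ) : ℝ) ≤ n := by exact_mod_cast hn.1.1.le
      have h2j : (0 : ℝ) < ((2 ^ j : ℕ) : ℝ) := by positivity
      refine one_div_le_one_div_of_le (by positivity) ?_
      refine mul_le_mul hn1 ?_ (by positivity) (by positivity)
      refine Real.rpow_le_rpow (by positivity) ?_ hε.le
      rw [← hlj]
      exact Real.log_le_log h2j hn1
    calc ∑ n ∈ (Ioc (2 ^ j) (2 ^ j + 2 ^ j)).filter Nat.Prime, 1 / ((n : ℝ) * Real.log n ^ ε) ≤
        (((Ioc (2 ^ j) (2 ^ j + 2 ^ j)).filter Nat.Prime).card : ℝ) *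
          (1 / (((2 ^ j : ℕ) : ℝ) * (j * Real.log 2) ^ ε)) := by
          rw [← nsmul_eq_mul]
          exact Finset.sum_le_card_nsmul _ _ _ hterm
      _ ≤ (C * ((2 ^ j : ℕ) : ℝ) / (j * Real.log 2)) *
          (1 / (((2 ^ j : ℕ) : ℝ) * (j * Real.log 2) ^ ε)) := by gcongr
      _ = c j := by
          simp only [hcdef, if_neg h0.ne']
          rw [Real.mul_rpow (by positivity) hl2.le, Real.rpow_add (by positivity), Real.rpow_one]
          have h2j : (0 : ℝ) < ((2 ^ j : ℕ) : ℝ) := by positivity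
          have hje : (0 : ℝ) < (j : ℝ) ^ ε := by positivity
          have hle : (0 : ℝ) < Real.log 2 ^ ε := by positivity
          field_simp

/-- the width `p / (log p) ^ (1 + ε)` -/
noncomputable def wid (ε : ℝ) (p : ℕ) : ℝ := (p : ℝ) / Real.log p ^ (1 + ε)

lemma w_anti {p q : ℕ} (hp : 3 ≤ p) (hpq : p ≤ q) : w q ≤ w p := by
  have h3 : Real.exp 1 ≤ (p : ℝ) := by
    have h1 : (3 : ℝ) ≤ p := by exact_mod_cast hp
    linarith [Real.exp_one_lt_d9]
  have hpq' : (p : ℝ) ≤ q := by exact_mod_cast hpq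
  exact Real.log_div_self_antitoneOn h3 (h3.trans hpq') hpq'

/-- a sum over pairs with `q` in a bounded range, from a bound of the inner sums -/
lemma summable_pairs {F : ℕ × ℕ → ℝ} (h0 : ∀ x, 0 ≤ F x) (hfin : ∀ p, {q | F (p, q) ≠ 0}.Finite)
    {g : ℕ → ℝ} (hg : Summable g) (h : ∀ᶠ p : ℕ in atTop, ∑' q, F (p, q) ≤ g p) : Summable F := by
  rw [summable_prod_of_nonneg h0]
  refine ⟨fun p => summable_of_finite_support (hfin p), ?_⟩
  refine Summable.of_norm_bounded_eventually_nat hg ?_
  filter_upwards [h] with p hp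
  rw [Real.norm_of_nonneg (tsum_nonneg fun q => h0 _)]
  exact hp

theorem pair_sum {ε : ℝ} (hε : 0 < ε) : Summable (fun x : ℕ × ℕ =>
    if x.1.Prime ∧ x.2.Prime ∧ x.1 < x.2 ∧ (x.2 : ℝ) ≤ x.1 + wid ε x.1 then w x.1 * w x.2 else 0) := by
  classical
  obtain ⟨C, hC, hbt⟩ := bt_card
  have hg := (prime_sum hε).mul_left (2 * C)
  refine summable_pairs (fun x => ?_) (fun p => ?_) hg ?_
  · split_ifs
    · exact mul_nonneg (w_nonneg _) (w_nonneg _)
    · exact le_rfl
  · refine (Set.finite_Iic ⌊(p : ℝ) + wid ε p⌋₊).subset fun q hq => ?_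
    simp only [Set.mem_ofPred_eq, ne_eq, ite_eq_right_iff, Classical.not_imp] at hq
    exact Nat.le_floor hq.1.2.2.2
  · -- large `p`
    have hlog : Tendsto (fun p : ℕ => Real.log (p : ℝ)) atTop atTop :=
      Real.tendsto_log_atTop.comp tendsto_natCast_atTop_atTop
    have hbig : ∀ᶠ p : ℕ in atTop, (p : ℝ) ^ (1 / 2 : ℝ) + 3 ≤ wid ε p := by
      have h1 : ∀ᶠ x : ℝ in atTop, Real.log x ^ (1 + ε) ≤ 1 / 4 * x ^ (1 / 2 : ℝ) := by
        have := (isLittleO_log_rpow_rpow_atTop (1 + ε) (show (0 : ℝ) < 1 / 2 by norm_num)).bound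
          (show (0 : ℝ) < 1 / 4 by norm_num)
        filter_upwards [this, eventually_ge_atTop 1] with x hx hx1
        rw [Real.norm_of_nonneg (Real.rpow_nonneg (Real.log_nonneg hx1) _),
          Real.norm_of_nonneg (Real.rpow_nonneg (by linarith) _)] at hx
        exact hx
      have h2 := tendsto_natCast_atTop_atTop.eventually h1
      have h3 := hlog.eventually_ge_atTop 1
      filter_upwards [h2, h3, eventually_ge_atTop 2] with p h2 h3 h4
      have hp : (2 : ℝ) ≤ p := by exact_mod_cast h4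
      have h5 : 0 < Real.log p ^ (1 + ε) := Real.rpow_pos_of_pos (by linarith) _
      have h6 : (1 : ℝ) ≤ (p : ℝ) ^ (1 / 2 : ℝ) := Real.one_le_rpow (by linarith) (by norm_num)
      have h7 : (p : ℝ) ^ (1 / 2 : ℝ) * (p : ℝ) ^ (1 / 2 : ℝ) = p := by
        rw [← Real.rpow_add (by linarith)]; norm_num
      unfold wid
      rw [le_div_iff₀ h5]
      calc ((p : ℝ) ^ (1 / 2 : ℝ) + 3) * Real.log p ^ (1 + ε) ≤
          (4 * (p : ℝ) ^ (1 / 2 : ℝ)) * (1 / 4 * (p : ℝ) ^ (1 / 2 : ℝ)) := by
            apply mul_le_mul _ h2 h5.le (by positivity)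
            linarith
        _ = p := by rw [show (4 * (p : ℝ) ^ (1 / 2 : ℝ)) * (1 / 4 * (p : ℝ) ^ (1 / 2 : ℝ)) =
              (p : ℝ) ^ (1 / 2 : ℝ) * (p : ℝ) ^ (1 / 2 : ℝ) by ring, h7]
    filter_upwards [hbig, hlog.eventually_ge_atTop 1, eventually_ge_atTop 3] with p hpb hpl hp3
    have hp3' : (3 : ℝ) ≤ p := by exact_mod_cast hp3
    by_cases hpp : p.Prime
    swap
    · rw [if_neg hpp]
      refine le_of_eq ?_
      rw [mul_zero]
      have : ∀ q : ℕ, (if p.Prime ∧ q.Prime ∧ p < q ∧ (q : ℝ) ≤ p + wid ε p then w p * w q else 0) = 0 :=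
        fun q => if_neg fun h => hpp h.1
      simp only [this, tsum_zero]
    · rw [if_pos hpp]
      set N := ⌊wid ε p⌋₊ with hN
      have hwid0 : 0 ≤ wid ε p := le_trans (by positivity) hpb
      have hNle : (N : ℝ) ≤ wid ε p := Nat.floor_le hwid0
      have hNgt : wid ε p < N + 1 := Nat.lt_floor_add_one _
      have hsq : (1 : ℝ) ≤ (p : ℝ) ^ (1 / 2 : ℝ) := Real.one_le_rpow (by linarith) (by norm_num)
      have hN2r : (p : ℝ) ^ (1 / 2 : ℝ) ≤ N := by linarith
      have hN2 : 2 ≤ N := by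
        have : (2 : ℝ) < N + 1 := by linarith
        have : 2 < N + 1 := by exact_mod_cast this
        omega
      have hlogN : 1 / 2 * Real.log p ≤ Real.log N := by
        have := Real.log_le_log (by positivity) hN2r
        rwa [Real.log_rpow (by linarith)] at this
      have hsupp : ∀ q ∉ (Ioc p (p + N)).filter Nat.Prime,
          (if p.Prime ∧ q.Prime ∧ p < q ∧ (q : ℝ) ≤ p + wid ε p then w p * w q else 0) = 0 := by
        intro q hq
        refine if_neg fun h => hq ?_
        rw [mem_filter, mem_Ioc]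
        refine ⟨⟨h.2.2.1, ?_⟩, h.2.1⟩
        have h1 : (q : ℝ) < ((p + N + 1 : ℕ) : ℝ) := by push_cast; linarith [h.2.2.2]
        have h2 : q < p + N + 1 := by exact_mod_cast h1
        omega
      rw [tsum_eq_sum hsupp]
      have hcard := hbt p N hN2
      have hlp : 0 < Real.log p := by linarith
      have hwp := w_nonneg p
      calc ∑ q ∈ (Ioc p (p + N)).filter Nat.Prime,
            (if p.Prime ∧ q.Prime ∧ p < q ∧ (q : ℝ) ≤ p + wid ε p then w p * w q else 0) ≤
          ∑ q ∈ (Ioc p (p + N)).filter Nat.Prime, w p * w p := by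
            refine Finset.sum_le_sum fun q hq => ?_
            rw [mem_filter, mem_Ioc] at hq
            split_ifs
            · exact mul_le_mul_of_nonneg_left (w_anti hp3 hq.1.1.le) hwp
            · positivity
        _ = (((Ioc p (p + N)).filter Nat.Prime).card : ℝ) * (w p * w p) := by
            rw [Finset.sum_const, nsmul_eq_mul]
        _ ≤ (C * N / Real.log N) * (w p * w p) := by gcongr
        _ ≤ (C * wid ε p / (1 / 2 * Real.log p)) * (w p * w p) := by gcongr
        _ = _ := by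
            unfold w wid
            rw [Real.rpow_add hlp, Real.rpow_one]
            have : 0 < Real.log p ^ ε := Real.rpow_pos_of_pos hlp _
            field_simp

/-- the zero blocks -/
theorem zero_sum {b : ℕ} (hb : 2 ≤ b) {ε : ℝ} (hε : 0 < ε) : Summable (fun x : ℕ × ℕ =>
    if x.1.Prime ∧ x.1 < x.2 ∧ (x.2 : ℝ) ≤ x.1 + wid ε x.1 ∧
      (x.1 : ℝ) + (1 + ε) * Real.log (Real.log x.1) / Real.log b < x.2
      then ((b : ℝ) ^ (x.2 - x.1))⁻¹ * w x.1 else 0) := by
  classical
  have hb2 : (2 : ℝ) ≤ b := by exact_mod_cast hb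
  have hlb : 0 < Real.log b := Real.log_pos (by linarith)
  set η : ℝ := ε / (2 * (1 + ε)) with hη
  have hη0 : 0 < η := by positivity
  have hη1 : (1 + ε) * (1 - η) = 1 + ε / 2 := by rw [hη]; field_simp; ring
  have hη2 : η < 1 := by rw [hη, div_lt_one (by positivity)]; linarith
  set r : ℝ := (b : ℝ) ^ (-η) with hr
  have hr0 : 0 < r := Real.rpow_pos_of_pos (by linarith) _
  have hr1 : r < 1 := Real.rpow_lt_one_of_one_lt_of_neg (by linarith) (by linarith)
  have hg := (prime_sum (show (0 : ℝ) < ε / 2 by positivity)).mul_left (1 - r)⁻¹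
  refine summable_pairs (fun x => ?_) (fun p => ?_) hg ?_
  · split_ifs
    · exact mul_nonneg (by positivity) (w_nonneg _)
    · exact le_rfl
  · refine (Set.finite_Iic ⌊(p : ℝ) + wid ε p⌋₊).subset fun q hq => ?_
    simp only [Set.mem_ofPred_eq, ne_eq, ite_eq_right_iff, Classical.not_imp] at hq
    exact Nat.le_floor hq.1.2.2.1
  · have hlog : Tendsto (fun p : ℕ => Real.log (p : ℝ)) atTop atTop :=
      Real.tendsto_log_atTop.comp tendsto_natCast_atTop_atTop
    filter_upwards [hlog.eventually_ge_atTop 1, eventually_ge_atTop 3] with p hpl hp3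
    have hp3' : (3 : ℝ) ≤ p := by exact_mod_cast hp3
    have hlp : 0 < Real.log p := by linarith
    by_cases hpp : p.Prime
    swap
    · rw [if_neg hpp]
      refine le_of_eq ?_
      rw [mul_zero]
      have : ∀ q : ℕ, (if p.Prime ∧ p < q ∧ (q : ℝ) ≤ p + wid ε p ∧
          (p : ℝ) + (1 + ε) * Real.log (Real.log p) / Real.log b < q
          then ((b : ℝ) ^ (q - p))⁻¹ * w p else 0) = 0 :=
        fun q => if_neg fun h => hpp h.1
      simp only [this, tsum_zero]
    · rw [if_pos hpp]
      set M := ⌊(p : ℝ) + wid ε p⌋₊ with hM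
      have hsupp : ∀ q ∉ Ioc p M,
          (if p.Prime ∧ p < q ∧ (q : ℝ) ≤ p + wid ε p ∧
          (p : ℝ) + (1 + ε) * Real.log (Real.log p) / Real.log b < q
          then ((b : ℝ) ^ (q - p))⁻¹ * w p else 0) = 0 := by
        intro q hq
        refine if_neg fun h => hq ?_
        rw [mem_Ioc]
        exact ⟨h.2.1, Nat.le_floor h.2.2.1⟩
      rw [tsum_eq_sum hsupp]
      have hterm : ∀ q ∈ Ioc p M, (if p.Prime ∧ p < q ∧ (q : ℝ) ≤ p + wid ε p ∧
          (p : ℝ) + (1 + ε) * Real.log (Real.log p) / Real.log b < q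
          then ((b : ℝ) ^ (q - p))⁻¹ * w p else 0) ≤
          (1 / ((p : ℝ) * Real.log p ^ (ε / 2))) * r ^ (q - p) := by
        intro q hq
        rw [mem_Ioc] at hq
        split_ifs with hc
        swap
        · positivity
        obtain ⟨_, _, _, hc4⟩ := hc
        set h := q - p with hh
        have hqr : (h : ℝ) = q - p := by rw [hh, Nat.cast_sub hq.1.le]
        have h1 : (1 + ε) * Real.log (Real.log p) < h * Real.log b := by
          have : (1 + ε) * Real.log (Real.log p) / Real.log b < h := by rw [hqr]; linarith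
          rwa [div_lt_iff₀ hlb] at this
        have e1 : ((b : ℝ) ^ h)⁻¹ = Real.exp (-(h * Real.log b)) := by
          rw [Real.exp_neg, ← Real.log_pow, Real.exp_log (by positivity)]
        have e2 : r ^ h = Real.exp (-(η * (h * Real.log b))) := by
          rw [hr, ← Real.rpow_natCast, ← Real.rpow_mul (by positivity),
            Real.rpow_def_of_pos (by positivity)]
          congr 1
          ring
        have e3 : Real.log p * (1 / Real.log p ^ (1 + ε / 2)) = 1 / Real.log p ^ (ε / 2) := by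
          rw [Real.rpow_add hlp, Real.rpow_one]
          have : 0 < Real.log p ^ (ε / 2) := Real.rpow_pos_of_pos hlp _
          field_simp
        have e4 : 1 / Real.log p ^ (1 + ε / 2) = Real.exp (-((1 + ε / 2) * Real.log (Real.log p))) := by
          rw [Real.exp_neg, Real.rpow_def_of_pos hlp, one_div]
          congr 2
          ring
        have h2 : ((b : ℝ) ^ h)⁻¹ ≤ (1 / Real.log p ^ (1 + ε / 2)) * r ^ h := by
          rw [e1, e2, e4, ← Real.exp_add, Real.exp_le_exp]
          have h3 : (1 - η) * ((1 + ε) * Real.log (Real.log p)) ≤ (1 - η) * (h * Real.log b) :=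
            mul_le_mul_of_nonneg_left h1.le (by linarith)
          have h4 : (1 - η) * ((1 + ε) * Real.log (Real.log p)) =
              (1 + ε / 2) * Real.log (Real.log p) := by
            rw [← hη1]; ring
          nlinarith
        calc ((b : ℝ) ^ h)⁻¹ * w p ≤ ((1 / Real.log p ^ (1 + ε / 2)) * r ^ h) * w p :=
              mul_le_mul_of_nonneg_right h2 (w_nonneg p)
          _ = (Real.log p * (1 / Real.log p ^ (1 + ε / 2))) / p * r ^ h := by unfold w; ring
          _ = _ := by rw [e3]; ring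
      calc _ ≤ ∑ q ∈ Ioc p M, (1 / ((p : ℝ) * Real.log p ^ (ε / 2))) * r ^ (q - p) :=
            Finset.sum_le_sum hterm
        _ = (1 / ((p : ℝ) * Real.log p ^ (ε / 2))) * ∑ q ∈ Ioc p M, r ^ (q - p) := by
            rw [Finset.mul_sum]
        _ ≤ (1 / ((p : ℝ) * Real.log p ^ (ε / 2))) * (1 - r)⁻¹ := by
            refine mul_le_mul_of_nonneg_left ?_ (by positivity)
            have hinj : Set.InjOn (fun q : ℕ => q - p) (Ioc p M : Set ℕ) := by
              intro x hx y hy hxy
              simp only [Finset.coe_Ioc, Set.mem_Ioc] at hx hy hxy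
              omega
            have e := Finset.sum_image (f := fun h : ℕ => r ^ h) hinj
            rw [← e, ← tsum_geometric_of_lt_one hr0.le hr1]
            exact (summable_geometric_of_lt_one hr0.le hr1).sum_le_tsum _ fun i _ => by positivity
        _ = _ := by ring

end Pool.Agent.X191.CP
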