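import Mathlib
import Pool.Agent.X191.CP.Sums

set_option autoImplicit false

/-!
# Pairs of levels: convergence for almost every amplitude
-/

namespace Pool.Agent.X191.CP

open Finset Filter Topology MeasureTheory
open Pool.Agent.H305R2 (roughPart ff NN measurable_ff measurable_NN ff_nonneg ff_le_one)

/-- Borel-Cantelli for indicator functions on a window -/
lemma bc {b0 : ℝ} {ι : Type} [Countable ι] (f : ι → ℝ → ℝ) (hm : ∀ i, Measurable (f i))
    (h0 : ∀ i t, 0 ≤ f i t) (h1 : ∀ i t, f i t ≤ 1) {c : ι → ℝ} (hc : Summable c)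
    (h : ∀ i, ∫ t in Set.Ioc b0 (b0 + 1), f i t ≤ c i) :
    ∀ᵐ t ∂(volume.restrict (Set.Ioc b0 (b0 + 1))), {i | 1 ≤ f i t}.Finite := by
  have hfin : IsFiniteMeasure (volume.restrict (Set.Ioc b0 (b0 + 1)) : Measure ℝ) :=
    ⟨by rw [Measure.restrict_apply_univ]; simp⟩
  have hint : ∀ i, Integrable (f i) (volume.restrict (Set.Ioc b0 (b0 + 1))) := fun i =>
    Integrable.of_bound (hm i).aestronglyMeasurable 1 (Eventually.of_forall fun t => by
      rw [Real.norm_of_nonneg (h0 i t)]; exact h1 i t)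
  have hle : ∀ i, (volume.restrict (Set.Ioc b0 (b0 + 1))) {t | 1 ≤ f i t} ≤ ENNReal.ofReal (c i) := by
    intro i
    have h2 := mul_meas_ge_le_integral_of_nonneg (Eventually.of_forall (h0 i)) (hint i) 1
    rw [one_mul] at h2
    have h3 := h2.trans (h i)
    rw [Measure.real, ] at h3
    rw [← ENNReal.ofReal_toReal (measure_ne_top (volume.restrict (Set.Ioc b0 (b0 + 1))) _)]
    exact ENNReal.ofReal_le_ofReal h3
  have hsum : ∑' i, (volume.restrict (Set.Ioc b0 (b0 + 1))) {t | 1 ≤ f i t} ≠ ⊤ := by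
    have h4 : ∀ i, 0 ≤ c i := fun i => (integral_nonneg (h0 i)).trans (h i)
    refine ne_top_of_le_ne_top ?_ (ENNReal.tsum_le_tsum hle)
    rw [← ENNReal.ofReal_tsum_of_nonneg h4 hc]
    exact ENNReal.ofReal_ne_top
  exact ae_finite_setOfPred_mem hsum

lemma ae_windows {P : ℝ → Prop}
    (h : ∀ b0 : ℝ, ∀ᵐ t ∂(volume.restrict (Set.Ioc b0 (b0 + 1))), P t) : ∀ᵐ t : ℝ, P t := by
  have h1 : ∀ n : ℤ, ∀ᵐ t : ℝ, t ∈ Set.Ioc (n : ℝ) (n + 1) → P t := fun n =>
    (ae_restrict_iff' measurableSet_Ioc).1 (h n)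
  have h2 := ae_all_iff.2 h1
  filter_upwards [h2] with t ht
  refine ht (⌈t⌉ - 1) ⟨?_, ?_⟩
  · push_cast
    have := Int.ceil_lt_add_one t
    linarith
  · push_cast
    have := Int.le_ceil t
    linarith

/-- uniform bound, all first levels -/
lemma uniform {b : ℕ} (hb : 2 ≤ b) (b0 : ℝ) {f : ℕ → ℕ → ℝ → ℝ} {G : ℕ → ℕ → ℝ}
    (hG : ∀ p q, w p * w q ≤ G p q)
    (hf : ∀ p q t, f p q t ≤ ff p (Real.log b * p + t) * ff q (Real.log b * q + t))
    (hfi : ∀ p q, IntegrableOn (f p q) (Set.Ioc b0 (b0 + 1)))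
    (h : ∃ K : ℝ, 0 < K ∧ ∃ P : ℕ, ∀ p ≥ P, ∀ q : ℕ, p < q →
      ∫ t in Set.Ioc b0 (b0 + 1), f p q t ≤ K * G p q) :
    ∃ K : ℝ, 0 < K ∧ ∃ P : ℕ, ∀ p q : ℕ, 2 ≤ p → p < q → P ≤ q →
      ∫ t in Set.Ioc b0 (b0 + 1), f p q t ≤ K * G p q := by
  obtain ⟨K, hK, P, hP⟩ := h
  obtain ⟨K1, hK1, P1, hP1⟩ := one_bound hb b0
  have hl2 : 0 < Real.log 2 := Real.log_pos (by norm_num)
  refine ⟨K + K1 * ((P + 1) / Real.log 2), by positivity, P1, fun p q hp hpq hq => ?_⟩
  have hww : 0 ≤ w p * w q := mul_nonneg (w_nonneg p) (w_nonneg q)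
  have hG0 : 0 ≤ G p q := hww.trans (hG p q)
  rcases le_or_gt P p with h1 | h1
  · refine (hP p h1 q hpq).trans ?_
    have : 0 ≤ K1 * ((P + 1) / Real.log 2) * G p q := by positivity
    linarith
  · have hq1 : IntegrableOn (fun t => ff q (Real.log b * q + t)) (Set.Ioc b0 (b0 + 1)) := by
      refine Measure.integrableOn_of_bounded (M := 1) (by simp)
        ((measurable_ff q).comp (measurable_id.const_add _)).aestronglyMeasurable
        (Eventually.of_forall fun t => ?_)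
      rw [Real.norm_of_nonneg (ff_nonneg _ _)]
      exact ff_le_one _ _
    have h2 : ∫ t in Set.Ioc b0 (b0 + 1), f p q t ≤ K1 * w q := by
      refine le_trans (setIntegral_mono (hfi p q) hq1 fun t => ?_) (hP1 q hq)
      refine (hf p q t).trans ?_
      calc _ ≤ 1 * ff q (Real.log b * q + t) :=
            mul_le_mul_of_nonneg_right (ff_le_one _ _) (ff_nonneg _ _)
        _ = _ := one_mul _
    have hp2 : (2 : ℝ) ≤ p := by exact_mod_cast hp
    have hpP : (p : ℝ) ≤ P + 1 := by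
      have : (p : ℝ) < P := by exact_mod_cast h1
      linarith
    have h3 : 1 ≤ (P + 1) / Real.log 2 * w p := by
      have h4 : Real.log 2 ≤ Real.log p := Real.log_le_log (by norm_num) hp2
      unfold w
      rw [div_mul_div_comm, le_div_iff₀ (by positivity), one_mul]
      nlinarith
    have hwq := w_nonneg q
    calc _ ≤ K1 * w q := h2
      _ = K1 * (1 * w q) := by ring
      _ ≤ K1 * (((P + 1) / Real.log 2 * w p) * w q) := by gcongr
      _ = K1 * ((P + 1) / Real.log 2) * (w p * w q) := by ring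
      _ ≤ K1 * ((P + 1) / Real.log 2) * G p q := by
          apply mul_le_mul_of_nonneg_left (hG p q) (by positivity)
      _ ≤ _ := by nlinarith

/-- **Borel-Cantelli for pairs of levels.** -/
theorem pairs_ae {b : ℕ} (hb : 2 ≤ b) {f : ℕ → ℕ → ℝ → ℝ} {G : ℕ → ℕ → ℝ}
    (hfm : ∀ p q, Measurable (f p q)) (hf0 : ∀ p q t, 0 ≤ f p q t)
    (hG : ∀ p q, w p * w q ≤ G p q)
    (hf : ∀ p q t, f p q t ≤ ff p (Real.log b * p + t) * ff q (Real.log b * q + t))
    (h : ∀ b0 : ℝ, ∃ K : ℝ, 0 < K ∧ ∃ P : ℕ, ∀ p ≥ P, ∀ q : ℕ, p < q →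
      ∫ t in Set.Ioc b0 (b0 + 1), f p q t ≤ K * G p q)
    (S : Set (ℕ × ℕ)) (hS : ∀ x ∈ S, 2 ≤ x.1 ∧ x.1 < x.2)
    (hsum : Summable (S.indicator (fun x : ℕ × ℕ => G x.1 x.2))) :
    ∀ᵐ t : ℝ, {x | x ∈ S ∧ 1 ≤ f x.1 x.2 t}.Finite := by
  classical
  refine ae_windows fun b0 => ?_
  have hf1 : ∀ p q t, f p q t ≤ 1 := fun p q t => (hf p q t).trans (prod_le_one b p q t)
  have hfi : ∀ p q, IntegrableOn (f p q) (Set.Ioc b0 (b0 + 1)) := fun p q => by
    refine Measure.integrableOn_of_bounded (M := 1) (by simp)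
      (hfm p q).aestronglyMeasurable (Eventually.of_forall fun t => ?_)
    rw [Real.norm_of_nonneg (hf0 p q t)]
    exact hf1 p q t
  obtain ⟨K, hK, P, hP⟩ := uniform hb b0 hG hf hfi (h b0)
  set g : ℕ × ℕ → ℝ → ℝ := fun x => if x ∈ S then f x.1 x.2 else fun _ => 0 with hg
  set c : ℕ × ℕ → ℝ := fun x => (if x.1 < x.2 ∧ x.2 < P then 1 else 0) +
    K * S.indicator (fun x : ℕ × ℕ => G x.1 x.2) x with hc
  have hG0 : ∀ x : ℕ × ℕ, 0 ≤ S.indicator (fun x : ℕ × ℕ => G x.1 x.2) x := fun x =>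
    Set.indicator_nonneg (fun x _ => (mul_nonneg (w_nonneg _) (w_nonneg _)).trans (hG _ _)) x
  have hcs : Summable c := by
    refine Summable.add ?_ (hsum.mul_left K)
    refine summable_of_hasFiniteSupport ?_
    refine ((Set.finite_Iio P).prod (Set.finite_Iio P)).subset fun x hx => ?_
    simp only [Function.mem_support, ne_eq, ite_eq_right_iff, Classical.not_imp] at hx
    exact ⟨show x.1 < P by omega, hx.1.2⟩
  have hb := bc (b0 := b0) g (fun x => by
      by_cases hx : x ∈ S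
      · simp only [hg, if_pos hx]; exact hfm _ _
      · simp only [hg, if_neg hx]; exact measurable_const)
    (fun x t => by
      by_cases hx : x ∈ S
      · simp only [hg, if_pos hx]; exact hf0 _ _ _
      · simp only [hg, if_neg hx]; exact le_rfl)
    (fun x t => by
      by_cases hx : x ∈ S
      · simp only [hg, if_pos hx]; exact hf1 _ _ _
      · simp only [hg, if_neg hx]; exact zero_le_one)
    hcs (fun x => by
      by_cases hx : x ∈ S
      · have h1 := hS x hx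
        simp only [hg, if_pos hx, hc]
        by_cases h2 : x.2 < P
        · rw [if_pos ⟨h1.2, h2⟩]
          have h3 : ∫ t in Set.Ioc b0 (b0 + 1), f x.1 x.2 t ≤ ∫ _t in Set.Ioc b0 (b0 + 1), (1 : ℝ) :=
            setIntegral_mono (hfi _ _) (by simp) fun t => hf1 _ _ t
          have h4 : ∫ _t in Set.Ioc b0 (b0 + 1), (1 : ℝ) = 1 := by simp
          have h5 := mul_nonneg hK.le (hG0 x)
          linarith
        · rw [if_neg (fun h => h2 h.2), zero_add, Set.indicator_of_mem hx]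
          exact hP _ _ h1.1 h1.2 (not_lt.1 h2)
      · simp only [hg, if_neg hx, integral_zero, hc]
        have h5 := mul_nonneg hK.le (hG0 x)
        have h6 : (0 : ℝ) ≤ if x.1 < x.2 ∧ x.2 < P then 1 else 0 := by split_ifs <;> norm_num
        linarith)
  filter_upwards [hb] with t ht
  refine ht.subset fun x hx => ?_
  simp only [Set.mem_ofPred_eq] at hx ⊢
  simp only [hg, if_pos hx.1]
  exact hx.2

end Pool.Agent.X191.CP
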