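import Mathlib
import Pool.Agent.X191.CP.Main
import Pool.Agent.W66.CJ

set_option autoImplicit false

/-!
# Pairs of levels for two curve families
-/

namespace Pool.Agent.X191.CP

open Finset Filter Topology MeasureTheory
open Pool.Agent.W66C (Cur near_c one_loc yy yy1 yy2 fam_cur measurable_yy ne_nat_ae)
open Pool.Agent.H447R2.ML (Loc pair_bound ff_eq_floor)
open Pool.Agent.H305R2 (roughPart ff measurable_ff ff_nonneg ff_le_one)

/-- Borel-Cantelli for indicator functions on a window -/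
lemma bc_window {b0 b1 : ℝ} {ι : Type} [Countable ι] (f : ι → ℝ → ℝ) (hm : ∀ i, Measurable (f i))
    (h0 : ∀ i t, 0 ≤ f i t) (h1 : ∀ i t, f i t ≤ 1) {c : ι → ℝ} (hc : Summable c)
    (h : ∀ i, ∫ t in Set.Ioc b0 b1, f i t ≤ c i) :
    ∀ᵐ t ∂(volume.restrict (Set.Ioc b0 b1)), {i | 1 ≤ f i t}.Finite := by
  have hfin : IsFiniteMeasure (volume.restrict (Set.Ioc b0 b1) : Measure ℝ) :=
    ⟨by rw [Measure.restrict_apply_univ]; simp⟩
  have hint : ∀ i, Integrable (f i) (volume.restrict (Set.Ioc b0 b1)) := fun i =>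
    Integrable.of_bound (hm i).aestronglyMeasurable 1 (Eventually.of_forall fun t => by
      rw [Real.norm_of_nonneg (h0 i t)]; exact h1 i t)
  have hle : ∀ i, (volume.restrict (Set.Ioc b0 b1)) {t | 1 ≤ f i t} ≤ ENNReal.ofReal (c i) := by
    intro i
    have h2 := mul_meas_ge_le_integral_of_nonneg (Eventually.of_forall (h0 i)) (hint i) 1
    rw [one_mul] at h2
    have h3 := h2.trans (h i)
    rw [Measure.real] at h3
    rw [← ENNReal.ofReal_toReal (measure_ne_top (volume.restrict (Set.Ioc b0 b1)) _)]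
    exact ENNReal.ofReal_le_ofReal h3
  have hsum : ∑' i, (volume.restrict (Set.Ioc b0 b1)) {t | 1 ≤ f i t} ≠ ⊤ := by
    have h4 : ∀ i, 0 ≤ c i := fun i => (integral_nonneg (h0 i)).trans (h i)
    refine ne_top_of_le_ne_top ?_ (ENNReal.tsum_le_tsum hle)
    rw [← ENNReal.ofReal_tsum_of_nonneg h4 hc]
    exact ENNReal.ofReal_ne_top
  exact ae_finite_setOfPred_mem hsum

/-- pairs with `2 p ≤ q` -/
lemma far_c {a0 a1 D b0 b1 : ℝ} (ha0 : 0 < a0) (hD : 0 ≤ D) (h0 : a0 < b0) (h01 : b0 < b1)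
    (h1 : b1 < a1) : ∃ K : ℝ, 0 < K ∧ ∃ P : ℕ, ∀ p ≥ P, ∀ q : ℕ, 2 * p ≤ q →
    ∀ y y' z z' : ℝ → ℝ, Loc a0 a1 D p y y' → Loc a0 a1 D q z z' →
    ∫ t in Set.Ioc b0 b1, ff p (y t) * ff q (z t) ≤ K * (w p * w q) := by
  obtain ⟨K2, hK2, P2, h2⟩ := pair_bound (a0 := a0) (a1 := a1) (D := D) (b0 := b0) (b1 := b1)
    ha0 hD h0 h1
  have hpos : 0 < b1 - b0 := by linarith
  refine ⟨2 * ((b1 - b0) + 1) * K2, by positivity, ?_⟩
  have hgap : ∀ᶠ q : ℕ in atTop, 64 / a0 * (Real.log q * Real.log (Real.log q)) ≤ q / 2 := by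
    have h1 : ∀ᶠ x : ℝ in atTop, 64 / a0 * (Real.log x * Real.log (Real.log x)) ≤ x / 2 := by
      have h2 : ∀ᶠ x : ℝ in atTop, (Real.log x) ^ 2 ≤ 1 / (2 * (64 / a0)) * x := by
        have h3 := (Real.isLittleO_pow_log_id_atTop (n := 2)).bound
          (show (0 : ℝ) < 1 / (2 * (64 / a0)) by positivity)
        filter_upwards [h3, eventually_gt_atTop 0] with x hx hx0
        rw [Real.norm_eq_abs, Real.norm_eq_abs, abs_of_nonneg (by positivity)] at hx
        simpa [abs_of_pos hx0] using hx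
      filter_upwards [h2, Real.tendsto_log_atTop.eventually_ge_atTop 1, eventually_gt_atTop 0]
        with x hx hx1 hx0
      have h4 : Real.log (Real.log x) ≤ Real.log x := by
        have := Real.log_le_sub_one_of_pos (show 0 < Real.log x by linarith)
        linarith
      calc 64 / a0 * (Real.log x * Real.log (Real.log x)) ≤ 64 / a0 * (Real.log x * Real.log x) := by gcongr
        _ = 64 / a0 * (Real.log x) ^ 2 := by ring
        _ ≤ 64 / a0 * (1 / (2 * (64 / a0)) * x) := by gcongr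
        _ = x / 2 := by field_simp
    exact tendsto_natCast_atTop_atTop.eventually h1
  obtain ⟨P3, hP3⟩ := eventually_atTop.1 hgap
  refine ⟨P2 + P3 + 1, fun p hp q hpq y y' z z' hy hz => ?_⟩
  have hp1 : (1 : ℝ) ≤ p := by exact_mod_cast (by omega : 1 ≤ p)
  have hpq' : 2 * (p : ℝ) ≤ q := by exact_mod_cast hpq
  have h3 := h2 p q (by omega) (by omega) _ _ _ _ hy hz (by
    have := hP3 q (by omega)
    linarith) b0 b1 le_rfl h01.le le_rfl
  have hwp : 0 ≤ Real.log p / p := div_nonneg (Real.log_natCast_nonneg p) (Nat.cast_nonneg p)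
  have hlq : 0 ≤ Real.log q := Real.log_natCast_nonneg q
  have hq0 : (0 : ℝ) < q := by linarith
  refine h3.trans ?_
  have h6 : (b1 - b0) + 1 / (p : ℝ) ≤ (b1 - b0) + 1 := by
    have : 1 / (p : ℝ) ≤ 1 := by rw [div_le_one (by linarith)]; exact hp1
    linarith
  have h7 : Real.log q / (q - p) ≤ 2 * (Real.log q / q) := by
    calc Real.log q / (q - p) ≤ Real.log q / (q / 2) :=
          div_le_div_of_nonneg_left hlq (by positivity) (by linarith)
      _ = _ := by field_simp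
  have h8 : 0 ≤ Real.log q / (q - p) := div_nonneg hlq (by linarith)
  calc K2 * ((b1 - b0) + 1 / p) * (Real.log p / p) * (Real.log q / (q - p)) ≤
        K2 * ((b1 - b0) + 1) * (Real.log p / p) * (2 * (Real.log q / q)) := by gcongr
    _ = _ := by unfold w; ring

lemma Cur_mono {a0 a1 D D' : ℝ} (h : D ≤ D') {h1 : ℝ → ℝ} {p : ℕ} {y y' y'' : ℝ → ℝ}
    (hy : Cur a0 a1 D h1 p y y' y'') : Cur a0 a1 D' h1 p y y' y'' :=
  ⟨⟨fun t ht => (hy.loc.near t ht).trans h, hy.loc.der, fun t ht => (hy.loc.slope t ht).trans h⟩,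
    hy.der2, hy.cont2, hy.slope, fun t ht => (hy.curv t ht).trans h⟩

/-- the bound on one window -/
lemma window_c {c0 : ℝ} (hc0 : 0 ≤ c0) {h1 h2 : ℝ → ℝ} {y y' y'' z z' z'' : ℕ → ℝ → ℝ}
    (hzm : ∀ p, Measurable (z p)) (hym : ∀ p, Measurable (y p))
    (hy : ∀ a0 a1 : ℝ, c0 < a0 → a0 < a1 → ∃ D : ℝ, 0 ≤ D ∧
      ∀ᶠ p : ℕ in atTop, Cur a0 a1 D h1 p (y p) (y' p) (y'' p))
    (hz : ∀ a0 a1 : ℝ, c0 < a0 → a0 < a1 → ∃ D : ℝ, 0 ≤ D ∧
      ∀ᶠ p : ℕ in atTop, Cur a0 a1 D h2 p (z p) (z' p) (z'' p)) {S : Set (ℕ × ℕ)}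
    (hS : ∀ x ∈ S, 2 ≤ x.1 ∧ x.1 ≤ x.2)
    (hsl : ∀ a0 a1 : ℝ, c0 < a0 → a0 < a1 → ∃ δ : ℝ, 0 < δ ∧ δ ≤ 1 ∧
      ∀ᶠ p : ℕ in atTop, ∀ q, (p, q) ∈ S → ∀ t ∈ Set.Icc a0 a1, δ ≤ z' q t - y' p t)
    {b0 b1 : ℝ} (hb0 : c0 < b0) (hb01 : b0 < b1) :
    ∃ K : ℝ, 0 < K ∧ ∃ P : ℕ, ∀ p q : ℕ, (p, q) ∈ S → P ≤ q →
      ∫ t in Set.Ioc b0 b1, ff p (y p t) * ff q (z q t) ≤ K * (w p * w q) := by
  set a0 := (c0 + b0) / 2 with ha0d
  set a1 := b1 + 1 with ha1d
  have ha0 : 0 < a0 := by rw [ha0d]; linarith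
  have hca : c0 < a0 := by rw [ha0d]; linarith
  have h0 : a0 < b0 := by rw [ha0d]; linarith
  have h1' : b1 < a1 := by rw [ha1d]; linarith
  obtain ⟨D1, hD1, hev1⟩ := hy a0 a1 hca (by linarith)
  obtain ⟨D2, hD2, hev2⟩ := hz a0 a1 hca (by linarith)
  obtain ⟨δ, hδ, hδ1, hev3⟩ := hsl a0 a1 hca (by linarith)
  set D := max D1 D2 with hDd
  have hD : 0 ≤ D := hD1.trans (le_max_left _ _)
  obtain ⟨P1, hP1⟩ := eventually_atTop.1 hev1
  obtain ⟨P2, hP2⟩ := eventually_atTop.1 hev2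
  obtain ⟨P3, hP3⟩ := eventually_atTop.1 hev3
  obtain ⟨K4, hK4, P4, h4⟩ := near_c (h1 := h1) (h2 := h2) ha0 hD h0 hb01 h1' hδ hδ1
  obtain ⟨K5, hK5, P5, h5⟩ := far_c ha0 hD h0 hb01 h1'
  obtain ⟨K6, hK6, P6, hP63, h6⟩ := one_loc ha0 hD h0 hb01 h1'
  set P := P1 + P2 + P3 + P4 + P5 + P6 with hPd
  have hl2 : 0 < Real.log 2 := Real.log_pos (by norm_num)
  refine ⟨2 * K4 + K5 + K6 * ((P + 1) / Real.log 2), by positivity, P, fun p q hpq hq => ?_⟩
  obtain ⟨hp2, hpq'⟩ := hS _ hpq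
  simp only at hp2 hpq'
  have hww : 0 ≤ w p * w q := mul_nonneg (w_nonneg p) (w_nonneg q)
  have e6 : 0 ≤ K6 * ((P + 1) / Real.log 2) * (w p * w q) := by positivity
  have e5 : 0 ≤ K5 * (w p * w q) := by positivity
  have e4 : 0 ≤ 2 * K4 * (w p * w q) := by positivity
  have hzq := Cur_mono (le_max_right D1 D2) (hP2 q (by omega))
  rw [← hDd] at hzq
  rcases le_or_gt P p with hPp | hPp
  · have hyp := Cur_mono (le_max_left D1 D2) (hP1 p (by omega))
    rw [← hDd] at hyp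
    rcases le_or_gt (2 * p) q with h2p | h2p
    · have := h5 p (by omega) q h2p _ _ _ _ hyp.loc hzq.loc
      linarith
    · have h7 := h4 p (by omega) q hpq' h2p.le _ _ _ _ _ _ hyp hzq (hP3 p (by omega) q hpq)
      have h8 : w p ≤ 2 * w q := by
        have hp0 : (0 : ℝ) < p := by positivity
        have hq0 : (0 : ℝ) < q := by
          have : 0 < q := by omega
          exact_mod_cast this
        have hq2 : (q : ℝ) ≤ 2 * p := by exact_mod_cast h2p.le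
        have hl : Real.log p ≤ Real.log q := Real.log_le_log hp0 (by exact_mod_cast hpq')
        have hlp := Real.log_natCast_nonneg p
        have hlq := Real.log_natCast_nonneg q
        unfold w
        rw [← mul_div_assoc, div_le_div_iff₀ hp0 hq0]
        nlinarith
      have h9 : K4 * (Real.log p / p) ^ 2 ≤ 2 * K4 * (w p * w q) := by
        have : K4 * (Real.log p / p) ^ 2 = K4 * (w p * w p) := by unfold w; ring
        rw [this]
        have := mul_le_mul_of_nonneg_left h8 (w_nonneg p)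
        nlinarith
      linarith
  · have hb : ∀ m x, ‖ff m x‖ ≤ 1 := fun m x => by
      rw [Real.norm_of_nonneg (ff_nonneg _ _)]; exact ff_le_one _ _
    have hq1 : IntegrableOn (fun t => ff q (z q t)) (Set.Ioc b0 b1) := by
      exact Measure.integrableOn_of_bounded (M := 1) (by simp)
        ((measurable_ff q).comp (hzm q)).aestronglyMeasurable
        (Eventually.of_forall fun t => hb _ _)
    have hq2 : IntegrableOn (fun t => ff p (y p t) * ff q (z q t)) (Set.Ioc b0 b1) := by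
      refine Measure.integrableOn_of_bounded (M := 1) (by simp)
        (((measurable_ff p).comp (hym p)).mul ((measurable_ff q).comp (hzm q))).aestronglyMeasurable
        (Eventually.of_forall fun t => ?_)
      rw [norm_mul]
      exact mul_le_one₀ (hb _ _) (norm_nonneg _) (hb _ _)
    have h2 : ∫ t in Set.Ioc b0 b1, ff p (y p t) * ff q (z q t) ≤ K6 * w q := by
      refine le_trans (setIntegral_mono hq2 hq1 fun t => ?_) ((h6 q (by omega)).2 _ _ hzq.loc).2.2.1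
      calc _ ≤ 1 * ff q (z q t) :=
            mul_le_mul_of_nonneg_right (ff_le_one _ _) (ff_nonneg _ _)
        _ = _ := one_mul _
    have hp2' : (2 : ℝ) ≤ p := by exact_mod_cast hp2
    have hpP : (p : ℝ) ≤ P + 1 := by
      have : (p : ℝ) < P := by exact_mod_cast hPp
      linarith
    have h3 : 1 ≤ (P + 1) / Real.log 2 * w p := by
      have h4 : Real.log 2 ≤ Real.log p := Real.log_le_log (by norm_num) hp2'
      unfold w
      rw [div_mul_div_comm, le_div_iff₀ (by positivity), one_mul]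
      nlinarith
    have hwq := w_nonneg q
    calc _ ≤ K6 * w q := h2
      _ = K6 * (1 * w q) := by ring
      _ ≤ K6 * (((P + 1) / Real.log 2 * w p) * w q) := by gcongr
      _ = K6 * ((P + 1) / Real.log 2) * (w p * w q) := by ring
      _ ≤ _ := by linarith

/-- **Borel-Cantelli for pairs of levels of two curve families.** -/
theorem pairs_cur {c0 : ℝ} (hc0 : 0 ≤ c0) {h1 h2 : ℝ → ℝ} {y y' y'' z z' z'' : ℕ → ℝ → ℝ}
    (hym : ∀ p, Measurable (y p)) (hzm : ∀ p, Measurable (z p))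
    (hy : ∀ a0 a1 : ℝ, c0 < a0 → a0 < a1 → ∃ D : ℝ, 0 ≤ D ∧
      ∀ᶠ p : ℕ in atTop, Cur a0 a1 D h1 p (y p) (y' p) (y'' p))
    (hz : ∀ a0 a1 : ℝ, c0 < a0 → a0 < a1 → ∃ D : ℝ, 0 ≤ D ∧
      ∀ᶠ p : ℕ in atTop, Cur a0 a1 D h2 p (z p) (z' p) (z'' p)) {S : Set (ℕ × ℕ)}
    (hS : ∀ x ∈ S, 2 ≤ x.1 ∧ x.1 ≤ x.2)
    (hsl : ∀ a0 a1 : ℝ, c0 < a0 → a0 < a1 → ∃ δ : ℝ, 0 < δ ∧ δ ≤ 1 ∧
      ∀ᶠ p : ℕ in atTop, ∀ q, (p, q) ∈ S → ∀ t ∈ Set.Icc a0 a1, δ ≤ z' q t - y' p t)
    (hsum : Summable (S.indicator (fun x : ℕ × ℕ => w x.1 * w x.2))) :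
    ∀ᵐ t : ℝ, c0 < t → {x | x ∈ S ∧ 1 ≤ ff x.1 (y x.1 t) * ff x.2 (z x.2 t)}.Finite := by
  classical
  have hwin : ∀ b0 b1 : ℝ, c0 < b0 → b0 < b1 → ∀ᵐ t ∂(volume.restrict (Set.Ioc b0 b1)),
      {x | x ∈ S ∧ 1 ≤ ff x.1 (y x.1 t) * ff x.2 (z x.2 t)}.Finite := by
    intro b0 b1 hb0 hb01
    obtain ⟨K, hK, P, hP⟩ := window_c hc0 hzm hym hy hz hS hsl hb0 hb01
    have hle : ∀ x : ℕ × ℕ, ∀ t, ff x.1 (y x.1 t) * ff x.2 (z x.2 t) ≤ 1 := fun x t =>
      mul_le_one₀ (ff_le_one _ _) (ff_nonneg _ _) (ff_le_one _ _)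
    have h0 : ∀ x : ℕ × ℕ, ∀ t, 0 ≤ ff x.1 (y x.1 t) * ff x.2 (z x.2 t) := fun x t =>
      mul_nonneg (ff_nonneg _ _) (ff_nonneg _ _)
    have hmeas : ∀ x : ℕ × ℕ, Measurable (fun t => ff x.1 (y x.1 t) * ff x.2 (z x.2 t)) := fun x =>
      ((measurable_ff x.1).comp (hym x.1)).mul ((measurable_ff x.2).comp (hzm x.2))
    have hfi : ∀ x : ℕ × ℕ, IntegrableOn (fun t => ff x.1 (y x.1 t) * ff x.2 (z x.2 t))
        (Set.Ioc b0 b1) := fun x => by
      refine Measure.integrableOn_of_bounded (M := 1) (by simp)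
        (hmeas x).aestronglyMeasurable (Eventually.of_forall fun t => ?_)
      rw [Real.norm_of_nonneg (h0 x t)]
      exact hle x t
    set g : ℕ × ℕ → ℝ → ℝ := fun x => if x ∈ S then
      (fun t => ff x.1 (y x.1 t) * ff x.2 (z x.2 t)) else fun _ => 0 with hg
    set c : ℕ × ℕ → ℝ := fun x => (if x.1 ≤ x.2 ∧ x.2 < P then b1 - b0 else 0) +
      K * S.indicator (fun x : ℕ × ℕ => w x.1 * w x.2) x with hc
    have hG0 : ∀ x : ℕ × ℕ, 0 ≤ S.indicator (fun x : ℕ × ℕ => w x.1 * w x.2) x := fun x =>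
      Set.indicator_nonneg (fun x _ => mul_nonneg (w_nonneg _) (w_nonneg _)) x
    have hcs : Summable c := by
      refine Summable.add ?_ (hsum.mul_left K)
      refine summable_of_hasFiniteSupport ?_
      refine ((Set.finite_Iio P).prod (Set.finite_Iio P)).subset fun x hx => ?_
      simp only [Function.mem_support, ne_eq, ite_eq_right_iff, Classical.not_imp] at hx
      exact ⟨show x.1 < P by omega, hx.1.2⟩
    have hb := bc_window (b0 := b0) (b1 := b1) g (fun x => by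
        by_cases hx : x ∈ S
        · simp only [hg, if_pos hx]; exact hmeas x
        · simp only [hg, if_neg hx]; exact measurable_const)
      (fun x t => by
        by_cases hx : x ∈ S
        · simp only [hg, if_pos hx]; exact h0 x t
        · simp only [hg, if_neg hx]; exact le_rfl)
      (fun x t => by
        by_cases hx : x ∈ S
        · simp only [hg, if_pos hx]; exact hle x t
        · simp only [hg, if_neg hx]; exact zero_le_one)
      hcs (fun x => by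
        by_cases hx : x ∈ S
        · have h1 := hS x hx
          simp only [hg, if_pos hx, hc]
          by_cases h2 : x.2 < P
          · rw [if_pos ⟨h1.2, h2⟩]
            have h3 : ∫ t in Set.Ioc b0 b1, ff x.1 (y x.1 t) * ff x.2 (z x.2 t) ≤
                ∫ _t in Set.Ioc b0 b1, (1 : ℝ) :=
              setIntegral_mono (hfi x) (by simp) fun t => hle x t
            have h4 : ∫ _t in Set.Ioc b0 b1, (1 : ℝ) = b1 - b0 := by
              rw [setIntegral_const, Real.volume_real_Ioc_of_le hb01.le, smul_eq_mul, mul_one]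
            have h5 := mul_nonneg hK.le (hG0 x)
            linarith
          · rw [if_neg (fun h => h2 h.2), zero_add, Set.indicator_of_mem hx]
            exact hP _ _ hx (not_lt.1 h2)
        · simp only [hg, if_neg hx, integral_zero, hc]
          have h5 := mul_nonneg hK.le (hG0 x)
          have h6 : (0 : ℝ) ≤ if x.1 ≤ x.2 ∧ x.2 < P then b1 - b0 else 0 := by
            split_ifs
            · linarith
            · exact le_rfl
          linarith)
    filter_upwards [hb] with t ht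
    refine ht.subset fun x hx => ?_
    simp only [Set.mem_ofPred_eq] at hx ⊢
    simp only [hg, if_pos hx.1]
    exact hx.2
  have hk : ∀ k : ℕ, ∀ᵐ t : ℝ, t ∈ Set.Ioc (c0 + 1 / ((k : ℝ) + 1)) (c0 + k + 2) →
      {x | x ∈ S ∧ 1 ≤ ff x.1 (y x.1 t) * ff x.2 (z x.2 t)}.Finite := by
    intro k
    have hk0 : (0 : ℝ) ≤ k := Nat.cast_nonneg k
    have h3 : 0 < 1 / ((k : ℝ) + 1) := by positivity
    have h4 : 1 / ((k : ℝ) + 1) ≤ 1 := by rw [div_le_one (by linarith)]; linarith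
    exact (ae_restrict_iff' measurableSet_Ioc).1 (hwin _ _ (by linarith) (by linarith))
  filter_upwards [ae_all_iff.2 hk] with t ht htc
  obtain ⟨k, hk⟩ := exists_nat_gt (max (1 / (t - c0)) (t - c0))
  have hk1 : 1 / (t - c0) < k := (le_max_left _ _).trans_lt hk
  have hk2 : t - c0 < k := (le_max_right _ _).trans_lt hk
  have htc' : 0 < t - c0 := by linarith
  refine ht k ⟨?_, by linarith⟩
  have h3 : 1 / ((k : ℝ) + 1) < t - c0 := by
    rw [div_lt_iff₀ htc'] at hk1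
    rw [div_lt_iff₀ (by linarith)]
    linarith
  linarith

/-- the same for values -/
theorem pairs_val {c0 : ℝ} (hc0 : 0 ≤ c0) {h1 h2 : ℝ → ℝ} {y y' y'' z z' z'' : ℕ → ℝ → ℝ}
    (hym : ∀ p, Measurable (y p)) (hzm : ∀ p, Measurable (z p))
    (hy : ∀ a0 a1 : ℝ, c0 < a0 → a0 < a1 → ∃ D : ℝ, 0 ≤ D ∧
      ∀ᶠ p : ℕ in atTop, Cur a0 a1 D h1 p (y p) (y' p) (y'' p))
    (hz : ∀ a0 a1 : ℝ, c0 < a0 → a0 < a1 → ∃ D : ℝ, 0 ≤ D ∧
      ∀ᶠ p : ℕ in atTop, Cur a0 a1 D h2 p (z p) (z' p) (z'' p)) {S : Set (ℕ × ℕ)}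
    (hS : ∀ x ∈ S, x.1.Prime ∧ x.2.Prime ∧ x.1 ≤ x.2)
    (hsl : ∀ a0 a1 : ℝ, c0 < a0 → a0 < a1 → ∃ δ : ℝ, 0 < δ ∧ δ ≤ 1 ∧
      ∀ᶠ p : ℕ in atTop, ∀ q, (p, q) ∈ S → ∀ t ∈ Set.Icc a0 a1, δ ≤ z' q t - y' p t)
    (hsum : Summable (S.indicator (fun x : ℕ × ℕ => w x.1 * w x.2))) {val val2 : ℕ → ℝ → ℝ}
    (hval : ∀ t, c0 < t → ∀ᶠ p : ℕ in atTop, p.Prime → 0 < val p t ∧ Real.log (val p t) = y p t)
    (hval2 : ∀ t, c0 < t → ∀ᶠ p : ℕ in atTop, p.Prime → 0 < val2 p t ∧ Real.log (val2 p t) = z p t) :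
    ∀ᵐ t : ℝ, c0 < t → ∀ᶠ p : ℕ in atTop, ∀ q : ℕ, (p, q) ∈ S →
      (roughPart p ⌊val p t⌋₊).Prime → ¬ (roughPart q ⌊val2 q t⌋₊).Prime := by
  filter_upwards [pairs_cur hc0 hym hzm hy hz (fun x hx => ⟨(hS x hx).1.two_le, (hS x hx).2.2⟩)
    hsl hsum, ne_nat_ae hy, ne_nat_ae hz] with t h2 h3 h4 htc
  obtain ⟨P1, hP1⟩ := h3 htc
  obtain ⟨P2, hP2⟩ := h4 htc
  obtain ⟨P3, hP3⟩ := eventually_atTop.1 (hval t htc)
  obtain ⟨P4, hP4⟩ := eventually_atTop.1 (hval2 t htc)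
  have hf : (Prod.fst '' {x | x ∈ S ∧ 1 ≤ ff x.1 (y x.1 t) * ff x.2 (z x.2 t)}).Finite :=
    (h2 htc).image _
  obtain ⟨M, hM⟩ := hf.bddAbove
  filter_upwards [eventually_gt_atTop (M + P1 + P2 + P3 + P4)] with p hp q hpq g1 g2
  obtain ⟨hpp, hqp, hle⟩ := hS _ hpq
  simp only at hpp hqp hle
  obtain ⟨e1, e2⟩ := hP3 p (by omega) hpp
  obtain ⟨e3, e4⟩ := hP4 q (by omega) hqp
  have f1 : ff p (y p t) = 1 := by
    rw [← e2, ff_eq_floor e1, if_pos g1]
    intro m hm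
    refine hP1 p (by omega) m ?_
    rw [← e2, Real.exp_log e1, hm]
  have f2 : ff q (z q t) = 1 := by
    rw [← e4, ff_eq_floor e3, if_pos g2]
    intro m hm
    refine hP2 q (by omega) m ?_
    rw [← e4, Real.exp_log e3, hm]
  have := hM ⟨(p, q), ⟨hpq, by simp only; rw [f1, f2, one_mul]⟩, rfl⟩
  simp only at this
  omega

/-- the slopes of perturbed exponentials -/
lemma yy1_close {m1 m0 s c0 : ℝ} (hm1 : 0 < m1) (hs : |s| ≤ 1) (hc : m0 ≤ m1 * c0) {η : ℝ}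
    (hη : 0 < η) {H' : ℝ → ℝ} (a0 a1 : ℝ) (ha0 : c0 < a0) :
    ∀ᶠ p : ℕ in atTop, ∀ t ∈ Set.Icc a0 a1, |yy1 m1 m0 s H' p t - p - H' t| ≤ η := by
  set μ0 := m1 * a0 - m0 with hμ0
  have hμ0pos : 0 < μ0 := by
    have : m1 * c0 < m1 * a0 := mul_lt_mul_of_pos_left ha0 hm1
    rw [hμ0]; linarith
  have hlin : Tendsto (fun p : ℕ => μ0 * (p : ℝ)) atTop atTop :=
    tendsto_natCast_atTop_atTop.const_mul_atTop hμ0pos
  have l0 := (Real.tendsto_pow_mul_exp_neg_atTop_nhds_zero 0).comp hlin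
  have l1 := (Real.tendsto_pow_mul_exp_neg_atTop_nhds_zero 1).comp hlin
  filter_upwards [l0.eventually_lt_const (show (0 : ℝ) < 1 / 2 by norm_num),
    l1.eventually_lt_const (show (0 : ℝ) < η * μ0 / (2 * m1) by positivity)] with p e0 e1 t ht
  simp only [Function.comp, pow_zero, one_mul, pow_one] at e0 e1
  set E := Real.exp (-(μ0 * (p : ℝ))) with hE
  have hE0 : 0 < E := Real.exp_pos _
  have hp0 : (0 : ℝ) ≤ p := Nat.cast_nonneg p
  have f1 : p * m1 * E ≤ η / 2 := by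
    rw [lt_div_iff₀ (by positivity)] at e1
    have h2 : μ0 * (p * m1 * E * 2) < μ0 * η := by
      calc μ0 * (p * m1 * E * 2) = μ0 * p * E * (2 * m1) := by ring
        _ < η * μ0 := e1
        _ = _ := by ring
    have h3 := lt_of_mul_lt_mul_left h2 hμ0pos.le
    linarith
  have hle : Real.exp (-(p * (m1 * t - m0))) ≤ E := by
    rw [hE]
    refine Real.exp_le_exp.2 ?_
    have h2 : m1 * a0 ≤ m1 * t := mul_le_mul_of_nonneg_left ht.1 hm1.le
    have h3 : (p : ℝ) * μ0 ≤ p * (m1 * t - m0) := mul_le_mul_of_nonneg_left (by rw [hμ0]; linarith) hp0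
    linarith
  set e := Real.exp (-(p * (m1 * t - m0))) with he
  have he0 : 0 < e := Real.exp_pos _
  have hse : |s * e| ≤ E := by
    rw [abs_mul, abs_of_pos he0]
    calc |s| * e ≤ 1 * E := mul_le_mul hs hle he0.le zero_le_one
      _ = E := one_mul _
  have hden : 1 / 2 ≤ 1 + s * e := by
    have := abs_le.1 hse
    linarith
  have e3 : yy1 m1 m0 s H' p t - p - H' t = (-(p * m1) * (s * e)) / (1 + s * e) := by
    unfold yy1
    ring
  rw [e3, abs_div, div_le_iff₀ (abs_pos.2 (by linarith)), abs_mul, abs_neg,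
    abs_of_nonneg (by positivity : (0 : ℝ) ≤ p * m1)]
  have h3 : (p * m1) * |s * e| ≤ p * m1 * E := mul_le_mul_of_nonneg_left hse (by positivity)
  have h4 : 1 / 2 ≤ |1 + s * e| := hden.trans (le_abs_self _)
  nlinarith

end Pool.Agent.X191.CP
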