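import Mathlib
import Pool.Agent.X191.CP.Cur
import Pool.Agent.W66.XG

set_option autoImplicit false

/-!
# Pairs of levels: abstract form, and perturbed amplitudes in a fixed integer base
-/

namespace Pool.Agent.X191.CP

open Finset Filter Topology MeasureTheory
open Pool.Agent.W66X (ysh measurable_ysh pert8 near_shift exp_ysh ae_of_exp')
open Pool.Agent.H447R2.ML (Sh sh_of pair_bound_sh single_upper_sh ff_eq_floor)
open Pool.Agent.H305R2 (roughPart ff measurable_ff ff_nonneg ff_le_one)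

/-- **Borel-Cantelli for pairs of levels, abstract form, one window.** -/
theorem pairs_gen {F1 F2 : ℕ → ℝ → ℝ} (m1 : ∀ p, Measurable (F1 p)) (m2 : ∀ p, Measurable (F2 p))
    (z1 : ∀ p t, 0 ≤ F1 p t) (z2 : ∀ p t, 0 ≤ F2 p t) (o1 : ∀ p t, F1 p t ≤ 1)
    (o2 : ∀ p t, F2 p t ≤ 1) {b0 b1 : ℝ} (hb01 : b0 < b1) {G : ℕ → ℕ → ℝ}
    (hG : ∀ p q, w p * w q ≤ G p q) {S : Set (ℕ × ℕ)} (hS : ∀ x ∈ S, 2 ≤ x.1 ∧ x.1 ≤ x.2)
    (hone : ∃ K : ℝ, 0 < K ∧ ∃ P : ℕ, ∀ q ≥ P, ∫ t in Set.Ioc b0 b1, F2 q t ≤ K * w q)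
    (hpair : ∃ K : ℝ, 0 < K ∧ ∃ P : ℕ, ∀ p ≥ P, ∀ q : ℕ, (p, q) ∈ S →
      ∫ t in Set.Ioc b0 b1, F1 p t * F2 q t ≤ K * G p q)
    (hsum : Summable (S.indicator (fun x : ℕ × ℕ => G x.1 x.2))) :
    ∀ᵐ t ∂(volume.restrict (Set.Ioc b0 b1)), {x | x ∈ S ∧ 1 ≤ F1 x.1 t * F2 x.2 t}.Finite := by
  classical
  obtain ⟨K1, hK1, P1, hP1⟩ := hone
  obtain ⟨K2, hK2, P2, hP2⟩ := hpair
  have hl2 : 0 < Real.log 2 := Real.log_pos (by norm_num)
  set P := P1 + P2 with hP
  set K := K2 + K1 * ((P + 1) / Real.log 2) with hK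
  have hKpos : 0 < K := by positivity
  have hle : ∀ x : ℕ × ℕ, ∀ t, F1 x.1 t * F2 x.2 t ≤ 1 := fun x t =>
    mul_le_one₀ (o1 _ _) (z2 _ _) (o2 _ _)
  have h0 : ∀ x : ℕ × ℕ, ∀ t, 0 ≤ F1 x.1 t * F2 x.2 t := fun x t => mul_nonneg (z1 _ _) (z2 _ _)
  have hmeas : ∀ x : ℕ × ℕ, Measurable (fun t => F1 x.1 t * F2 x.2 t) := fun x =>
    (m1 x.1).mul (m2 x.2)
  have hfi : ∀ x : ℕ × ℕ, IntegrableOn (fun t => F1 x.1 t * F2 x.2 t) (Set.Ioc b0 b1) := fun x => by
    refine Measure.integrableOn_of_bounded (M := 1) (by simp)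
      (hmeas x).aestronglyMeasurable (Eventually.of_forall fun t => ?_)
    rw [Real.norm_of_nonneg (h0 x t)]
    exact hle x t
  have hfi2 : ∀ q : ℕ, IntegrableOn (fun t => F2 q t) (Set.Ioc b0 b1) := fun q => by
    refine Measure.integrableOn_of_bounded (M := 1) (by simp)
      (m2 q).aestronglyMeasurable (Eventually.of_forall fun t => ?_)
    rw [Real.norm_of_nonneg (z2 q t)]
    exact o2 q t
  have hbd : ∀ x ∈ S, P ≤ x.2 → ∫ t in Set.Ioc b0 b1, F1 x.1 t * F2 x.2 t ≤ K * G x.1 x.2 := by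
    rintro ⟨p, q⟩ hx hq
    obtain ⟨hp2, hpq⟩ := hS _ hx
    simp only at hp2 hpq hq ⊢
    have hww : 0 ≤ w p * w q := mul_nonneg (w_nonneg p) (w_nonneg q)
    have hG0 : 0 ≤ G p q := hww.trans (hG p q)
    rcases le_or_gt P p with h1 | h1
    · have := hP2 p (by omega) q hx
      have : 0 ≤ K1 * ((P + 1) / Real.log 2) * G p q := by positivity
      rw [hK, add_mul]
      linarith
    · have h2 : ∫ t in Set.Ioc b0 b1, F1 p t * F2 q t ≤ K1 * w q := by
        refine le_trans (setIntegral_mono (hfi (p, q)) (hfi2 q) fun t => ?_) (hP1 q (by omega))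
        calc _ ≤ 1 * F2 q t := mul_le_mul_of_nonneg_right (o1 _ _) (z2 _ _)
          _ = _ := one_mul _
      have hp2' : (2 : ℝ) ≤ p := by exact_mod_cast hp2
      have hpP : (p : ℝ) ≤ P + 1 := by
        have : (p : ℝ) < P := by exact_mod_cast h1
        linarith
      have h3 : 1 ≤ (P + 1) / Real.log 2 * w p := by
        have h4 : Real.log 2 ≤ Real.log p := Real.log_le_log (by norm_num) hp2'
        unfold w
        rw [div_mul_div_comm, le_div_iff₀ (by positivity), one_mul]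
        nlinarith
      have hwq := w_nonneg q
      calc _ ≤ K1 * w q := h2
        _ = K1 * (1 * w q) := by ring
        _ ≤ K1 * (((P + 1) / Real.log 2 * w p) * w q) := by gcongr
        _ = K1 * ((P + 1) / Real.log 2) * (w p * w q) := by ring
        _ ≤ K1 * ((P + 1) / Real.log 2) * G p q := by
            apply mul_le_mul_of_nonneg_left (hG p q) (by positivity)
        _ ≤ _ := by rw [hK]; nlinarith
  set g : ℕ × ℕ → ℝ → ℝ := fun x => if x ∈ S then
    (fun t => F1 x.1 t * F2 x.2 t) else fun _ => 0 with hg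
  set c : ℕ × ℕ → ℝ := fun x => (if x.1 ≤ x.2 ∧ x.2 < P then b1 - b0 else 0) +
    K * S.indicator (fun x : ℕ × ℕ => G x.1 x.2) x with hc
  have hG0 : ∀ x : ℕ × ℕ, 0 ≤ S.indicator (fun x : ℕ × ℕ => G x.1 x.2) x := fun x =>
    Set.indicator_nonneg (fun x _ => (mul_nonneg (w_nonneg _) (w_nonneg _)).trans (hG _ _)) x
  have hcs : Summable c := by
    refine Summable.add ?_ (hsum.mul_left K)
    refine summable_of_hasFiniteSupport ?_
    refine ((Set.finite_Iio P).prod (Set.finite_Iio P)).subset fun x hx => ?_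
    simp only [Function.mem_support, ne_eq, ite_eq_right_iff, Classical.not_imp] at hx
    exact ⟨show x.1 < P by omega, hx.1.2⟩
  have hb := bc_window (b0 := b0) (b1 := b1) g (fun x => by
      by_cases hx : x ∈ S
      · simp only [hg, if_pos hx]; exact hmeas x
      · simp only [hg, if_neg hx]; exact measurable_const)
    (fun x t => by
      by_cases hx : x ∈ S
      · simp only [hg, if_pos hx]; exact h0 x t
      · simp only [hg, if_neg hx]; exact le_rfl)
    (fun x t => by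
      by_cases hx : x ∈ S
      · simp only [hg, if_pos hx]; exact hle x t
      · simp only [hg, if_neg hx]; exact zero_le_one)
    hcs (fun x => by
      by_cases hx : x ∈ S
      · have h1 := hS x hx
        simp only [hg, if_pos hx, hc]
        by_cases h2 : x.2 < P
        · rw [if_pos ⟨h1.2, h2⟩]
          have h3 : ∫ t in Set.Ioc b0 b1, F1 x.1 t * F2 x.2 t ≤ ∫ _t in Set.Ioc b0 b1, (1 : ℝ) :=
            setIntegral_mono (hfi x) (by simp) fun t => hle x t
          have h4 : ∫ _t in Set.Ioc b0 b1, (1 : ℝ) = b1 - b0 := by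
            rw [setIntegral_const, Real.volume_real_Ioc_of_le hb01.le, smul_eq_mul, mul_one]
          have h5 := mul_nonneg hKpos.le (hG0 x)
          linarith
        · rw [if_neg (fun h => h2 h.2), zero_add, Set.indicator_of_mem hx]
          exact hbd _ hx (not_lt.1 h2)
      · simp only [hg, if_neg hx, integral_zero, hc]
        have h5 := mul_nonneg hKpos.le (hG0 x)
        have h6 : (0 : ℝ) ≤ if x.1 ≤ x.2 ∧ x.2 < P then b1 - b0 else 0 := by
          split_ifs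
          · linarith
          · exact le_rfl
        linarith)
  filter_upwards [hb] with t ht
  refine ht.subset fun x hx => ?_
  simp only [Set.mem_ofPred_eq] at hx ⊢
  simp only [hg, if_pos hx.1]
  exact hx.2

/-- pairs with `2 p ≤ q`, perturbed amplitudes -/
lemma far_sh {b : ℕ} (hb : 2 ≤ b) {κ C : ℝ} (hκ0 : 0 ≤ κ) (hκ : κ < b) {g : ℕ → ℝ}
    (hg : ∀ p, |g p| ≤ C * κ ^ p) (b0 : ℝ) : ∃ K : ℝ, 0 < K ∧ ∃ P : ℕ, ∀ p ≥ P, ∀ q : ℕ, 2 * p ≤ q →
    ∫ t in Set.Ioc b0 (b0 + 1), ff p (ysh b g p t) * ff q (ysh b g q t) ≤ K * (w p * w q) := by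
  have hbr : (2 : ℝ) ≤ b := by exact_mod_cast hb
  have ha : 0 < Real.log b := Real.log_pos (by linarith)
  set a := Real.log b with hadef
  obtain ⟨K2, hK2, P2, h2⟩ := pair_bound_sh (a := a) (a0 := b0 - 1) (a1 := b0 + 2)
    (b0 := b0) (b1 := b0 + 1) ha (by linarith) (by linarith)
  obtain ⟨P4, hP4⟩ := eventually_atTop.1 (sh_of (α := b) (by linarith) hκ0 hκ hg (b0 - 1) (b0 + 2))
  refine ⟨4 * K2, by positivity, ?_⟩
  have hgap : ∀ᶠ q : ℕ in atTop, 64 / a * (Real.log q * Real.log (Real.log q)) ≤ q / 2 := by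
    have h1 : ∀ᶠ x : ℝ in atTop, 64 / a * (Real.log x * Real.log (Real.log x)) ≤ x / 2 := by
      have h2 : ∀ᶠ x : ℝ in atTop, (Real.log x) ^ 2 ≤ 1 / (2 * (64 / a)) * x := by
        have h3 := (Real.isLittleO_pow_log_id_atTop (n := 2)).bound
          (show (0 : ℝ) < 1 / (2 * (64 / a)) by positivity)
        filter_upwards [h3, eventually_gt_atTop 0] with x hx hx0
        rw [Real.norm_eq_abs, Real.norm_eq_abs, abs_of_nonneg (by positivity)] at hx
        simpa [abs_of_pos hx0] using hx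
      filter_upwards [h2, Real.tendsto_log_atTop.eventually_ge_atTop 1, eventually_gt_atTop 0]
        with x hx hx1 hx0
      have h4 : Real.log (Real.log x) ≤ Real.log x := by
        have := Real.log_le_sub_one_of_pos (show 0 < Real.log x by linarith)
        linarith
      calc 64 / a * (Real.log x * Real.log (Real.log x)) ≤ 64 / a * (Real.log x * Real.log x) := by gcongr
        _ = 64 / a * (Real.log x) ^ 2 := by ring
        _ ≤ 64 / a * (1 / (2 * (64 / a)) * x) := by gcongr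
        _ = x / 2 := by field_simp
    exact tendsto_natCast_atTop_atTop.eventually h1
  obtain ⟨P3, hP3⟩ := eventually_atTop.1 hgap
  refine ⟨P2 + P3 + P4 + 1, fun p hp q hpq => ?_⟩
  have hp1 : (1 : ℝ) ≤ p := by exact_mod_cast (by omega : 1 ≤ p)
  have hpq' : 2 * (p : ℝ) ≤ q := by exact_mod_cast hpq
  have h3 := h2 p q (by omega) (by omega) _ _ _ _ (hP4 p (by omega)) (hP4 q (by omega)) (by
    have := hP3 q (by omega)
    linarith) b0 (b0 + 1) le_rfl (by linarith) le_rfl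
  have hwp : 0 ≤ Real.log p / p := div_nonneg (Real.log_natCast_nonneg p) (Nat.cast_nonneg p)
  have hlq : 0 ≤ Real.log q := Real.log_natCast_nonneg q
  have hq0 : (0 : ℝ) < q := by linarith
  refine le_trans (le_of_eq rfl) (h3.trans ?_)
  have h6 : (b0 + 1 - b0) + 1 / (p : ℝ) ≤ 2 := by
    have : 1 / (p : ℝ) ≤ 1 := by rw [div_le_one (by linarith)]; exact hp1
    linarith
  have h7 : Real.log q / (q - p) ≤ 2 * (Real.log q / q) := by
    calc Real.log q / (q - p) ≤ Real.log q / (q / 2) :=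
          div_le_div_of_nonneg_left hlq (by positivity) (by linarith)
      _ = _ := by field_simp
  have h8 : 0 ≤ Real.log q / (q - p) := div_nonneg hlq (by linarith)
  calc K2 * ((b0 + 1 - b0) + 1 / p) * (Real.log p / p) * (Real.log q / (q - p)) ≤
        K2 * 2 * (Real.log p / p) * (2 * (Real.log q / q)) := by gcongr
    _ = _ := by unfold w; ring

/-- **Borel-Cantelli for pairs of levels, perturbed amplitudes.** -/
theorem pairs_shift {b : ℕ} (hb : 2 ≤ b) {κ C : ℝ} (hκ0 : 0 ≤ κ) (hκ : κ < b) {g : ℕ → ℝ}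
    (hg : ∀ p, |g p| ≤ C * κ ^ p) {S : Set (ℕ × ℕ)} (hS : ∀ x ∈ S, 2 ≤ x.1 ∧ x.1 < x.2)
    (hsum : Summable (S.indicator (fun x : ℕ × ℕ => w x.1 * w x.2 +
      ((2 : ℝ) ^ (x.2 - x.1))⁻¹ * w x.1))) :
    ∀ᵐ t : ℝ, {x | x ∈ S ∧ 1 ≤ ff x.1 (ysh b g x.1 t) * ff x.2 (ysh b g x.2 t)}.Finite := by
  have hbr : (2 : ℝ) ≤ b := by exact_mod_cast hb
  refine ae_windows fun b0 => ?_
  refine pairs_gen (F1 := fun p t => ff p (ysh b g p t)) (F2 := fun p t => ff p (ysh b g p t))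
    (G := fun p q => w p * w q + ((2 : ℝ) ^ (q - p))⁻¹ * w p)
    (fun p => (measurable_ff p).comp (measurable_ysh b g p))
    (fun p => (measurable_ff p).comp (measurable_ysh b g p))
    (fun _ _ => ff_nonneg _ _) (fun _ _ => ff_nonneg _ _) (fun _ _ => ff_le_one _ _)
    (fun _ _ => ff_le_one _ _) (by linarith) (fun p q => ?_) (fun x hx => ⟨(hS x hx).1, (hS x hx).2.le⟩)
    ?_ ?_ hsum
  · have : 0 ≤ ((2 : ℝ) ^ (q - p))⁻¹ * w p := mul_nonneg (by positivity) (w_nonneg p)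
    linarith
  · obtain ⟨K, hK, P, hP⟩ := single_upper_sh (Real.log_pos (by linarith : (1 : ℝ) < b)) (b0 - 1)
    obtain ⟨P4, hP4⟩ := eventually_atTop.1 (sh_of (α := b) (by linarith) hκ0 hκ hg (b0 - 1) (b0 + 2))
    refine ⟨2 * K, by positivity, P + P4 + 1, fun q hq => ?_⟩
    have h1 := hP q (by omega) (b0 + 2) _ _ (hP4 q (by omega)) b0 (b0 + 1) (by linarith) (by linarith)
      (by linarith)
    refine le_trans (le_of_eq rfl) (h1.trans ?_)
    have hq1 : (1 : ℝ) ≤ q := by exact_mod_cast (by omega : 1 ≤ q)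
    have h6 : (b0 + 1 - b0) + 1 / (q : ℝ) ≤ 2 := by
      have : 1 / (q : ℝ) ≤ 1 := by rw [div_le_one (by linarith)]; exact hq1
      linarith
    have h7 : 0 ≤ Real.log q / q := div_nonneg (Real.log_natCast_nonneg q) (Nat.cast_nonneg q)
    calc K * ((b0 + 1 - b0) + 1 / q) * (Real.log q / q) ≤ K * 2 * (Real.log q / q) := by gcongr
      _ = _ := by unfold w; ring
  · obtain ⟨K1, hK1, P1, hP1⟩ := near_shift hb hκ0 hκ hg b0
    obtain ⟨K2, hK2, P2, hP2⟩ := far_sh hb hκ0 hκ hg b0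
    refine ⟨2 * K1 + K2, by positivity, P1 + P2 + 1, fun p hp q hpq => ?_⟩
    obtain ⟨hp2, hlt⟩ := hS _ hpq
    simp only at hp2 hlt
    have hww : 0 ≤ w p * w q := mul_nonneg (w_nonneg p) (w_nonneg q)
    have hz : 0 ≤ ((2 : ℝ) ^ (q - p))⁻¹ * w p := mul_nonneg (by positivity) (w_nonneg p)
    rcases le_or_gt (2 * p) q with h2p | h2p
    · have := hP2 p (by omega) q h2p
      have e1 : 0 ≤ 2 * K1 * (w p * w q) := by positivity
      have e2 : 0 ≤ 2 * K1 * (((2 : ℝ) ^ (q - p))⁻¹ * w p) := by positivity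
      have e3 : 0 ≤ K2 * (((2 : ℝ) ^ (q - p))⁻¹ * w p) := by positivity
      nlinarith
    · have h7 := hP1 p (by omega) q hlt h2p.le
      have h8 : w p ≤ 2 * w q := by
        have hp0 : (0 : ℝ) < p := by positivity
        have hq0 : (0 : ℝ) < q := by
          have : 0 < q := by omega
          exact_mod_cast this
        have hq2 : (q : ℝ) ≤ 2 * p := by exact_mod_cast h2p.le
        have hl : Real.log p ≤ Real.log q := Real.log_le_log hp0 (by exact_mod_cast hlt.le)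
        have hlp := Real.log_natCast_nonneg p
        have hlq := Real.log_natCast_nonneg q
        unfold w
        rw [← mul_div_assoc, div_le_div_iff₀ hp0 hq0]
        nlinarith
      have h9 : (Real.log p / p) ^ 2 ≤ 2 * (w p * w q) := by
        have e : (Real.log p / p) ^ 2 = w p * w p := by unfold w; ring
        rw [e]
        have := mul_le_mul_of_nonneg_left h8 (w_nonneg p)
        nlinarith
      refine h7.trans ?_
      have e3 : 0 ≤ K2 * (((2 : ℝ) ^ (q - p))⁻¹ * w p) := by positivity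
      have e4 : 0 ≤ K2 * (w p * w q) := by positivity
      have e5 : 0 ≤ K1 * (((2 : ℝ) ^ (q - p))⁻¹ * w p) := by positivity
      have e6 : K1 * ((Real.log p / p) ^ 2 + ((2 : ℝ) ^ (q - p))⁻¹ * (Real.log p / p)) ≤
          K1 * (2 * (w p * w q) + ((2 : ℝ) ^ (q - p))⁻¹ * w p) := by
        refine mul_le_mul_of_nonneg_left ?_ hK1.le
        unfold w at h9 ⊢
        linarith
      nlinarith

/-- the same for the integers `⌊β b ^ p + g p⌋` -/
theorem pairs_floor {b : ℕ} (hb : 2 ≤ b) {κ C : ℝ} (hκ0 : 0 ≤ κ) (hκ : κ < b) {g : ℕ → ℝ}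
    (hg : ∀ p, |g p| ≤ C * κ ^ p) {S : Set (ℕ × ℕ)} (hS : ∀ x ∈ S, 2 ≤ x.1 ∧ x.1 < x.2)
    (hsum : Summable (S.indicator (fun x : ℕ × ℕ => w x.1 * w x.2 +
      ((2 : ℝ) ^ (x.2 - x.1))⁻¹ * w x.1))) :
    ∀ᵐ β : ℝ, 0 < β → ∀ᶠ p : ℕ in atTop, ∀ q : ℕ, (p, q) ∈ S →
      (roughPart p ⌊β * (b : ℝ) ^ p + g p⌋₊).Prime → ¬ (roughPart q ⌊β * (b : ℝ) ^ q + g q⌋₊).Prime := by
  have hbr : (2 : ℝ) ≤ b := by exact_mod_cast hb
  have hα0 : (0 : ℝ) < b := by linarith
  have h2 : ∀ᵐ t : ℝ, ∀ p m : ℕ, Real.exp t * (b : ℝ) ^ p + g p ≠ m := by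
    have hnull : volume (⋃ p : ℕ, ⋃ m : ℕ, {t : ℝ | Real.exp t * (b : ℝ) ^ p + g p = m}) = 0 := by
      refine Set.Countable.measure_zero ?_ volume
      refine Set.countable_iUnion fun p => Set.countable_iUnion fun m => ?_
      refine Set.Subsingleton.countable ?_
      intro s hs t ht
      simp only [Set.mem_ofPred_eq] at hs ht
      have h3 : Real.exp s * (b : ℝ) ^ p = Real.exp t * (b : ℝ) ^ p := by linarith
      exact Real.exp_injective (mul_right_cancel₀ (pow_pos hα0 p).ne' h3)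
    have hae : ∀ᵐ t : ℝ, t ∉ ⋃ p : ℕ, ⋃ m : ℕ, {t : ℝ | Real.exp t * (b : ℝ) ^ p + g p = m} := by
      rw [ae_iff]
      refine measure_mono_null (fun t ht => ?_) hnull
      simpa only [Set.mem_ofPred_eq, not_not] using ht
    filter_upwards [hae] with t ht p m hm
    refine ht ?_
    simp only [Set.mem_iUnion]
    exact ⟨p, m, hm⟩
  refine ae_of_exp' (P := fun β : ℝ => ∀ᶠ p : ℕ in atTop, ∀ q : ℕ, (p, q) ∈ S →
      (roughPart p ⌊β * (b : ℝ) ^ p + g p⌋₊).Prime →
        ¬ (roughPart q ⌊β * (b : ℝ) ^ q + g q⌋₊).Prime) ?_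
  filter_upwards [pairs_shift hb hκ0 hκ hg hS hsum, h2] with t ht htn
  obtain ⟨P, hP⟩ := eventually_atTop.1 (pert8 hα0 hκ0 hκ hg t 8)
  have hcomp : ∀ p, P ≤ p → ff p (ysh b g p t) =
      if (roughPart p ⌊Real.exp t * (b : ℝ) ^ p + g p⌋₊).Prime then 1 else 0 := by
    intro p hp
    exact ff_eq_floor (exp_ysh hα0 (hP p hp) le_rfl).2.1 (fun m => htn p m)
  have hf : (Prod.fst '' {x | x ∈ S ∧ 1 ≤ ff x.1 (ysh b g x.1 t) * ff x.2 (ysh b g x.2 t)}).Finite :=
    ht.image _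
  obtain ⟨M, hM⟩ := hf.bddAbove
  filter_upwards [eventually_gt_atTop (M + P)] with p hp q hpq g1 g2
  obtain ⟨_, hlt⟩ := hS _ hpq
  simp only at hlt
  have f1 := hcomp p (by omega)
  have f2 := hcomp q (by omega)
  rw [if_pos g1] at f1
  rw [if_pos g2] at f2
  have := hM ⟨(p, q), ⟨hpq, by simp only; rw [f1, f2, one_mul]⟩, rfl⟩
  simp only at this
  omega

end Pool.Agent.X191.CP
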