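import Mathlib
import Pool.Agent.X191.CP.Shift

set_option autoImplicit false

/-!
# Pairs of levels in two bases
-/

namespace Pool.Agent.X191.CP

open Finset Filter Topology MeasureTheory
open Pool.Agent.H447R2.ML (short_interval)
open Pool.Agent.H305R2 (roughPart ff NN bounds measurable_ff ff_nonneg ff_le_one integrableOn_ff)

/-- **Borel-Cantelli for pairs of levels, abstract form, one window.** -/
theorem pairs_gen' {F1 F2 : ℕ → ℝ → ℝ} (m1 : ∀ p, Measurable (F1 p)) (m2 : ∀ p, Measurable (F2 p))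
    (z1 : ∀ p t, 0 ≤ F1 p t) (z2 : ∀ p t, 0 ≤ F2 p t) (o1 : ∀ p t, F1 p t ≤ 1)
    (o2 : ∀ p t, F2 p t ≤ 1) {b0 b1 : ℝ} (hb01 : b0 < b1) {S : Set (ℕ × ℕ)} {C : ℕ}
    (hS : ∀ x ∈ S, 2 ≤ x.1 ∧ x.1 ≤ C * x.2)
    (hone : ∃ K : ℝ, 0 < K ∧ ∃ P : ℕ, ∀ q ≥ P, ∫ t in Set.Ioc b0 b1, F2 q t ≤ K * w q)
    (hpair : ∃ K : ℝ, 0 < K ∧ ∃ P : ℕ, ∀ p ≥ P, ∀ q ≥ P, (p, q) ∈ S →
      ∫ t in Set.Ioc b0 b1, F1 p t * F2 q t ≤ K * (w p * w q))
    (hsum : Summable (S.indicator (fun x : ℕ × ℕ => w x.1 * w x.2))) :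
    ∀ᵐ t ∂(volume.restrict (Set.Ioc b0 b1)), {x | x ∈ S ∧ 1 ≤ F1 x.1 t * F2 x.2 t}.Finite := by
  classical
  obtain ⟨K1, hK1, P1, hP1⟩ := hone
  obtain ⟨K2, hK2, P2, hP2⟩ := hpair
  have hl2 : 0 < Real.log 2 := Real.log_pos (by norm_num)
  set P := P1 + P2 with hP
  set K := K2 + K1 * ((P + 1) / Real.log 2) with hK
  have hKpos : 0 < K := by positivity
  have hle : ∀ x : ℕ × ℕ, ∀ t, F1 x.1 t * F2 x.2 t ≤ 1 := fun x t =>
    mul_le_one₀ (o1 _ _) (z2 _ _) (o2 _ _)
  have h0 : ∀ x : ℕ × ℕ, ∀ t, 0 ≤ F1 x.1 t * F2 x.2 t := fun x t => mul_nonneg (z1 _ _) (z2 _ _)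
  have hmeas : ∀ x : ℕ × ℕ, Measurable (fun t => F1 x.1 t * F2 x.2 t) := fun x =>
    (m1 x.1).mul (m2 x.2)
  have hfi : ∀ x : ℕ × ℕ, IntegrableOn (fun t => F1 x.1 t * F2 x.2 t) (Set.Ioc b0 b1) := fun x => by
    refine Measure.integrableOn_of_bounded (M := 1) (by simp)
      (hmeas x).aestronglyMeasurable (Eventually.of_forall fun t => ?_)
    rw [Real.norm_of_nonneg (h0 x t)]
    exact hle x t
  have hfi2 : ∀ q : ℕ, IntegrableOn (fun t => F2 q t) (Set.Ioc b0 b1) := fun q => by
    refine Measure.integrableOn_of_bounded (M := 1) (by simp)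
      (m2 q).aestronglyMeasurable (Eventually.of_forall fun t => ?_)
    rw [Real.norm_of_nonneg (z2 q t)]
    exact o2 q t
  have hbd : ∀ x ∈ S, P ≤ x.2 → ∫ t in Set.Ioc b0 b1, F1 x.1 t * F2 x.2 t ≤ K * (w x.1 * w x.2) := by
    rintro ⟨p, q⟩ hx hq
    obtain ⟨hp2, hpq⟩ := hS _ hx
    simp only at hp2 hpq hq ⊢
    have hww : 0 ≤ w p * w q := mul_nonneg (w_nonneg p) (w_nonneg q)
    rcases le_or_gt P p with h1 | h1
    · have := hP2 p (by omega) q (by omega) hx
      have : 0 ≤ K1 * ((P + 1) / Real.log 2) * (w p * w q) := by positivity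
      rw [hK, add_mul]
      linarith
    · have h2 : ∫ t in Set.Ioc b0 b1, F1 p t * F2 q t ≤ K1 * w q := by
        refine le_trans (setIntegral_mono (hfi (p, q)) (hfi2 q) fun t => ?_) (hP1 q (by omega))
        calc _ ≤ 1 * F2 q t := mul_le_mul_of_nonneg_right (o1 _ _) (z2 _ _)
          _ = _ := one_mul _
      have hp2' : (2 : ℝ) ≤ p := by exact_mod_cast hp2
      have hpP : (p : ℝ) ≤ P + 1 := by
        have : (p : ℝ) < P := by exact_mod_cast h1
        linarith
      have h3 : 1 ≤ (P + 1) / Real.log 2 * w p := by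
        have h4 : Real.log 2 ≤ Real.log p := Real.log_le_log (by norm_num) hp2'
        unfold w
        rw [div_mul_div_comm, le_div_iff₀ (by positivity), one_mul]
        nlinarith
      have hwq := w_nonneg q
      calc _ ≤ K1 * w q := h2
        _ = K1 * (1 * w q) := by ring
        _ ≤ K1 * (((P + 1) / Real.log 2 * w p) * w q) := by gcongr
        _ = K1 * ((P + 1) / Real.log 2) * (w p * w q) := by ring
        _ ≤ _ := by rw [hK]; nlinarith
  set g : ℕ × ℕ → ℝ → ℝ := fun x => if x ∈ S then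
    (fun t => F1 x.1 t * F2 x.2 t) else fun _ => 0 with hg
  set c : ℕ × ℕ → ℝ := fun x => (if x.1 ≤ C * x.2 ∧ x.2 < P then b1 - b0 else 0) +
    K * S.indicator (fun x : ℕ × ℕ => w x.1 * w x.2) x with hc
  have hG0 : ∀ x : ℕ × ℕ, 0 ≤ S.indicator (fun x : ℕ × ℕ => w x.1 * w x.2) x := fun x =>
    Set.indicator_nonneg (fun x _ => mul_nonneg (w_nonneg _) (w_nonneg _)) x
  have hcs : Summable c := by
    refine Summable.add ?_ (hsum.mul_left K)
    refine summable_of_hasFiniteSupport ?_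
    refine ((Set.finite_Iic (C * P)).prod (Set.finite_Iio P)).subset fun x hx => ?_
    simp only [Function.mem_support, ne_eq, ite_eq_right_iff, Classical.not_imp] at hx
    refine ⟨hx.1.1.trans (Nat.mul_le_mul_left C hx.1.2.le), hx.1.2⟩
  have hb := bc_window (b0 := b0) (b1 := b1) g (fun x => by
      by_cases hx : x ∈ S
      · simp only [hg, if_pos hx]; exact hmeas x
      · simp only [hg, if_neg hx]; exact measurable_const)
    (fun x t => by
      by_cases hx : x ∈ S
      · simp only [hg, if_pos hx]; exact h0 x t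
      · simp only [hg, if_neg hx]; exact le_rfl)
    (fun x t => by
      by_cases hx : x ∈ S
      · simp only [hg, if_pos hx]; exact hle x t
      · simp only [hg, if_neg hx]; exact zero_le_one)
    hcs (fun x => by
      by_cases hx : x ∈ S
      · have h1 := hS x hx
        simp only [hg, if_pos hx, hc]
        by_cases h2 : x.2 < P
        · rw [if_pos ⟨h1.2, h2⟩]
          have h3 : ∫ t in Set.Ioc b0 b1, F1 x.1 t * F2 x.2 t ≤ ∫ _t in Set.Ioc b0 b1, (1 : ℝ) :=
            setIntegral_mono (hfi x) (by simp) fun t => hle x t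
          have h4 : ∫ _t in Set.Ioc b0 b1, (1 : ℝ) = b1 - b0 := by
            rw [setIntegral_const, Real.volume_real_Ioc_of_le hb01.le, smul_eq_mul, mul_one]
          have h5 := mul_nonneg hKpos.le (hG0 x)
          linarith
        · rw [if_neg (fun h => h2 h.2), zero_add, Set.indicator_of_mem hx]
          exact hbd _ hx (not_lt.1 h2)
      · simp only [hg, if_neg hx, integral_zero, hc]
        have h5 := mul_nonneg hKpos.le (hG0 x)
        have h6 : (0 : ℝ) ≤ if x.1 ≤ C * x.2 ∧ x.2 < P then b1 - b0 else 0 := by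
          split_ifs
          · linarith
          · exact le_rfl
        linarith)
  filter_upwards [hb] with t ht
  refine ht.subset fun x hx => ?_
  simp only [Set.mem_ofPred_eq] at hx ⊢
  simp only [hg, if_pos hx.1]
  exact hx.2

lemma NN_cell {B : ℕ} (hB : 1 ≤ B) {v : ℝ} (h1 : Real.log B < v) (h2 : v ≤ Real.log ((B + 1 : ℕ) : ℝ)) :
    NN v = B := by
  have hB0 : (0 : ℝ) < B := by exact_mod_cast hB
  have h3 : (B : ℝ) < Real.exp v := (Real.log_lt_iff_lt_exp hB0).1 h1
  have h4 : Real.exp v ≤ ((B + 1 : ℕ) : ℝ) := (Real.le_log_iff_exp_le (by positivity)).1 h2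
  unfold NN
  have h5 : ⌈Real.exp v⌉₊ = B + 1 := by
    rw [Nat.ceil_eq_iff (Nat.succ_ne_zero _)]
    refine ⟨?_, h4⟩
    simpa using h3
  rw [h5]
  simp

lemma ioc_split {A B : ℕ} (hA : 1 ≤ A) (hAB : A ≤ B) :
    Set.Ioc (Real.log A) (Real.log ((B + 1 : ℕ) : ℝ)) =
      Set.Ioc (Real.log A) (Real.log B) ∪ Set.Ioc (Real.log B) (Real.log ((B + 1 : ℕ) : ℝ)) := by
  have hA0 : (0 : ℝ) < A := by exact_mod_cast hA
  have hB0 : (0 : ℝ) < B := by exact_mod_cast (hA.trans hAB)
  rw [Set.Ioc_union_Ioc_eq_Ioc (Real.log_le_log hA0 (by exact_mod_cast hAB))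
    (Real.log_le_log hB0 (by push_cast; linarith))]

/-- summation over cells -/
lemma cell_sum (p : ℕ) {G : ℝ → ℝ} (hGm : Measurable G) (h0 : ∀ v, 0 ≤ G v) (h1 : ∀ v, G v ≤ 1)
    {κ : ℝ} {A : ℕ} (hA : 1 ≤ A) (n : ℕ)
    (h : ∀ N : ℕ, A ≤ N → N < A + n → ∫ v in Set.Ioc (Real.log N) (Real.log ((N + 1 : ℕ) : ℝ)), G v ≤
      κ * (Real.log ((N + 1 : ℕ) : ℝ) - Real.log N)) :
    ∫ v in Set.Ioc (Real.log A) (Real.log ((A + n : ℕ) : ℝ)), ff p v * G v ≤
      κ * ∫ v in Set.Ioc (Real.log A) (Real.log ((A + n : ℕ) : ℝ)), ff p v := by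
  induction n with
  | zero => simp
  | succ n ih =>
    have ih' := ih fun N h2 h3 => h N h2 (by omega)
    have hIG : ∀ a b : ℝ, IntegrableOn (fun v => ff p v * G v) (Set.Ioc a b) := fun a b => by
      refine Measure.integrableOn_of_bounded (M := 1) (by simp)
        ((measurable_ff p).mul hGm).aestronglyMeasurable (Eventually.of_forall fun t => ?_)
      rw [Real.norm_of_nonneg (mul_nonneg (ff_nonneg _ _) (h0 _))]
      exact mul_le_one₀ (ff_le_one _ _) (h0 _) (h1 _)
    have hdis : Disjoint (Set.Ioc (Real.log A) (Real.log ((A + n : ℕ) : ℝ)))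
        (Set.Ioc (Real.log ((A + n : ℕ) : ℝ)) (Real.log ((A + n + 1 : ℕ) : ℝ))) := by
      rw [Set.disjoint_left]
      intro x hx hy
      exact absurd hx.2 (not_le.2 hy.1)
    have e := ioc_split hA (Nat.le_add_right A n)
    rw [show A + (n + 1) = A + n + 1 by ring, e,
      setIntegral_union hdis measurableSet_Ioc (hIG _ _) (hIG _ _),
      setIntegral_union hdis measurableSet_Ioc (integrableOn_ff p _ _) (integrableOn_ff p _ _)]
    have hcell := h (A + n) (by omega) (by omega)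
    set B := A + n with hB
    have hB1 : 1 ≤ B := by omega
    set r : ℝ := if (roughPart p B).Prime then 1 else 0 with hr
    have hr0 : 0 ≤ r := by rw [hr]; split_ifs <;> norm_num
    have e1 : ∫ v in Set.Ioc (Real.log B) (Real.log ((B + 1 : ℕ) : ℝ)), ff p v * G v =
        r * ∫ v in Set.Ioc (Real.log B) (Real.log ((B + 1 : ℕ) : ℝ)), G v := by
      rw [← integral_const_mul]
      refine setIntegral_congr_fun measurableSet_Ioc fun v hv => ?_
      simp only [ff, NN_cell hB1 hv.1 hv.2, hr]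
    have e2 : ∫ v in Set.Ioc (Real.log B) (Real.log ((B + 1 : ℕ) : ℝ)), ff p v =
        r * (Real.log ((B + 1 : ℕ) : ℝ) - Real.log B) := by
      have e3 : ∫ v in Set.Ioc (Real.log B) (Real.log ((B + 1 : ℕ) : ℝ)), ff p v =
          ∫ _v in Set.Ioc (Real.log B) (Real.log ((B + 1 : ℕ) : ℝ)), r := by
        refine setIntegral_congr_fun measurableSet_Ioc fun v hv => ?_
        simp only [ff, NN_cell hB1 hv.1 hv.2, hr]
      have hB0 : (0 : ℝ) < B := by exact_mod_cast hB1
      rw [e3, setIntegral_const, Real.volume_real_Ioc_of_le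
        (Real.log_le_log hB0 (by push_cast; linarith)), smul_eq_mul]
      ring
    rw [e1, e2, mul_add]
    have := mul_le_mul_of_nonneg_left hcell hr0
    linarith

/-- **Joint bound for two bases.** -/
lemma two_bound {α γ δ : ℝ} (hα : 1 < α) (hδ : 0 < δ) (b0 : ℝ) :
    ∃ K : ℝ, 0 < K ∧ ∃ P : ℕ, ∀ p ≥ P, ∀ q ≥ P,
    δ * max (p : ℝ) q ≤ Real.log γ * q - Real.log α * p →
    ∫ t in Set.Ioc b0 (b0 + 1), ff p (Real.log α * p + t) * ff q (Real.log γ * q + t) ≤
      K * (w p * w q) := by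
  have ha : 0 < Real.log α := Real.log_pos hα
  set a := Real.log α with hadef
  obtain ⟨K1, hK1, hev1⟩ := short_interval
  obtain ⟨K2, hK2, hev2⟩ := bounds (c := a / 2) (by positivity)
  have hlarge : ∀ᶠ p : ℕ in atTop, (|b0| + 4) * 2 / a < p :=
    tendsto_natCast_atTop_atTop.eventually_gt_atTop _
  have hgap : ∀ᶠ q : ℕ in atTop, 32 * (Real.log q * Real.log (Real.log q)) + 1 ≤ δ * q ∧
      δ * q / 2 ≤ δ * q - 1 := by
    have h1 : ∀ᶠ x : ℝ in atTop, 32 * (Real.log x * Real.log (Real.log x)) + 1 ≤ δ * x ∧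
        δ * x / 2 ≤ δ * x - 1 := by
      have h2 : ∀ᶠ x : ℝ in atTop, (Real.log x) ^ 2 ≤ δ / 64 * x := by
        have h3 := (Real.isLittleO_pow_log_id_atTop (n := 2)).bound
          (show (0 : ℝ) < δ / 64 by positivity)
        filter_upwards [h3, eventually_gt_atTop 0] with x hx hx0
        rw [Real.norm_eq_abs, Real.norm_eq_abs, abs_of_nonneg (by positivity)] at hx
        simpa [abs_of_pos hx0] using hx
      filter_upwards [h2, Real.tendsto_log_atTop.eventually_ge_atTop 1, eventually_gt_atTop 0,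
        eventually_ge_atTop (2 / δ)] with x hx hx1 hx0 hx2
      have h4 : Real.log (Real.log x) ≤ Real.log x := by
        have := Real.log_le_sub_one_of_pos (show 0 < Real.log x by linarith)
        linarith
      have h5 : 2 ≤ δ * x := by
        rw [div_le_iff₀ hδ] at hx2
        linarith
      constructor
      · calc 32 * (Real.log x * Real.log (Real.log x)) + 1 ≤ 32 * (Real.log x * Real.log x) + 1 := by
              gcongr
          _ = 32 * (Real.log x) ^ 2 + 1 := by ring
          _ ≤ 32 * (δ / 64 * x) + δ * x / 2 := by gcongr; linarith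
          _ = δ * x := by ring
      · linarith
    exact tendsto_natCast_atTop_atTop.eventually h1
  obtain ⟨P, hP⟩ := eventually_atTop.1 (hev1.and (hev2.and (hlarge.and (hgap.and
    (eventually_ge_atTop 3)))))
  refine ⟨(2 * K1 / δ) * (4 * K2), by positivity, P, fun p hp q hq hcond => ?_⟩
  obtain ⟨_, ⟨_, hb2, _, _⟩, hpl, _, hp3⟩ := hP p hp
  obtain ⟨hshort, _, _, ⟨hg1, hg2⟩, hq3⟩ := hP q hq
  have hp3' : (3 : ℝ) ≤ p := by exact_mod_cast hp3
  have hq3' : (3 : ℝ) ≤ q := by exact_mod_cast hq3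
  have hσ : δ * q ≤ Real.log γ * q - a * p :=
    (mul_le_mul_of_nonneg_left (le_max_right _ _) hδ.le).trans hcond
  set σ := Real.log γ * q - a * p with hσd
  have hlow : |b0| + 4 ≤ a / 2 * p := by
    rw [div_lt_iff₀ ha] at hpl
    linarith
  have hnb := neg_abs_le b0
  set v0 := a * p + b0 with hv0
  have hv04 : a / 2 * p + 4 ≤ v0 := by linarith
  set A := ⌊Real.exp v0⌋₊ with hA
  set B := ⌊Real.exp (v0 + 1)⌋₊ + 1 with hB
  have hap : 0 ≤ a / 2 * p := by positivity
  have hev : Real.exp 1 ≤ Real.exp v0 := Real.exp_le_exp.2 (by linarith)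
  have he1 := Real.exp_one_gt_d9
  have hA1 : 1 ≤ A := by
    rw [hA, Nat.le_floor_iff (Real.exp_pos _).le]
    push_cast; linarith
  have hA0 : (0 : ℝ) < A := by exact_mod_cast hA1
  have hAB : A ≤ B := by
    have : A ≤ ⌊Real.exp (v0 + 1)⌋₊ := Nat.floor_mono (Real.exp_le_exp.2 (by linarith))
    omega
  obtain ⟨n, hn⟩ := Nat.exists_eq_add_of_le hAB
  have hB0 : (0 : ℝ) < B := by exact_mod_cast hA1.trans hAB
  have hlA : Real.log A ≤ v0 := by
    rw [Real.log_le_iff_le_exp hA0]
    exact Nat.floor_le (Real.exp_pos _).le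
  have hlB : v0 + 1 ≤ Real.log B := by
    rw [Real.le_log_iff_exp_le hB0, hB]
    push_cast
    exact (Nat.lt_floor_add_one _).le
  have hlA' : v0 - 1 ≤ Real.log A := by
    rw [Real.le_log_iff_exp_le hA0]
    have h3 := Nat.lt_floor_add_one (Real.exp v0)
    rw [← hA] at h3
    have h4 : Real.exp (v0 - 1) * Real.exp 1 = Real.exp v0 := by rw [← Real.exp_add]; ring_nf
    have h5 : Real.exp 1 ≤ Real.exp (v0 - 1) := Real.exp_le_exp.2 (by linarith)
    nlinarith
  have hlB' : Real.log B ≤ v0 + 2 := by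
    rw [Real.log_le_iff_le_exp hB0, hB]
    have h3 := Nat.floor_le (Real.exp_pos (v0 + 1)).le
    have h4 : Real.exp (v0 + 2) = Real.exp (v0 + 1) * Real.exp 1 := by rw [← Real.exp_add]; ring_nf
    have h5 : Real.exp 1 ≤ Real.exp (v0 + 1) := Real.exp_le_exp.2 (by linarith)
    push_cast
    nlinarith
  -- change of variables
  have hcv : ∫ t in Set.Ioc b0 (b0 + 1), ff p (a * p + t) * ff q (Real.log γ * q + t) =
      ∫ v in Set.Ioc v0 (v0 + 1), ff p v * ff q (v + σ) := by
    rw [← intervalIntegral.integral_of_le (by linarith), ← intervalIntegral.integral_of_le (by linarith)]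
    have h6 := intervalIntegral.integral_comp_add_left (a := b0) (b := b0 + 1)
      (fun v => ff p v * ff q (v + σ)) (a * p)
    rw [show a * p + (b0 + 1) = v0 + 1 by rw [hv0]; ring] at h6
    rw [← h6]
    refine intervalIntegral.integral_congr fun t _ => ?_
    have e0 : Real.log γ * q + t = a * p + t + σ := by rw [hσd]; ring
    rw [e0]
  have hIG : ∀ x y : ℝ, IntegrableOn (fun v => ff p v * ff q (v + σ)) (Set.Ioc x y) := fun x y => by
    refine Measure.integrableOn_of_bounded (M := 1) (by simp)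
      ((measurable_ff p).mul ((measurable_ff q).comp (measurable_id.add_const σ))).aestronglyMeasurable
      (Eventually.of_forall fun t => ?_)
    rw [Real.norm_of_nonneg (mul_nonneg (ff_nonneg _ _) (ff_nonneg _ _))]
    exact mul_le_one₀ (ff_le_one _ _) (ff_nonneg _ _) (ff_le_one _ _)
  have hlq : 0 ≤ Real.log q := Real.log_natCast_nonneg q
  have hstep1 : ∫ v in Set.Ioc v0 (v0 + 1), ff p v * ff q (v + σ) ≤
      ∫ v in Set.Ioc (Real.log A) (Real.log B), ff p v * ff q (v + σ) := by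
    refine setIntegral_mono_set (hIG _ _) ?_ (Set.Ioc_subset_Ioc hlA hlB).eventuallyLE
    exact Eventually.of_forall fun v => mul_nonneg (ff_nonneg _ _) (ff_nonneg _ _)
  have hstep2 := cell_sum p (G := fun v => ff q (v + σ)) (κ := (2 * K1 / δ) * w q)
    ((measurable_ff q).comp (measurable_id.add_const σ)) (fun _ => ff_nonneg _ _)
    (fun _ => ff_le_one _ _) hA1 n (by
      intro N hN _
      have hN1 : 1 ≤ N := hA1.trans hN
      have hN0 : (0 : ℝ) < N := by exact_mod_cast hN1
      have hN1' : (1 : ℝ) ≤ N := by exact_mod_cast hN1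
      set hh := Real.log ((N + 1 : ℕ) : ℝ) - Real.log N with hhd
      have e1 : hh = Real.log (((N + 1 : ℕ) : ℝ) / N) := by
        rw [hhd, Real.log_div (by positivity) hN0.ne']
      have hh1 : 1 / ((N : ℝ) + 1) ≤ hh := by
        rw [e1]
        have h6 := Real.one_sub_inv_le_log_of_pos (show (0 : ℝ) < ((N + 1 : ℕ) : ℝ) / N by positivity)
        have h7 : 1 - (((N + 1 : ℕ) : ℝ) / N)⁻¹ = 1 / ((N : ℝ) + 1) := by push_cast; field_simp; ring
        linarith
      have hh2 : hh ≤ 1 := by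
        rw [e1]
        have h6 := Real.log_le_sub_one_of_pos (show (0 : ℝ) < ((N + 1 : ℕ) : ℝ) / N by positivity)
        have h7 : ((N + 1 : ℕ) : ℝ) / N - 1 = 1 / (N : ℝ) := by push_cast; field_simp; ring
        have h8 : 1 / (N : ℝ) ≤ 1 := by rw [div_le_one hN0]; exact hN1'
        linarith
      have hh0 : 0 < hh := lt_of_lt_of_le (by positivity) hh1
      have hlow2 : σ - 1 ≤ (Real.log N + σ) + Real.log hh := by
        have h6 : Real.log (1 / ((N : ℝ) + 1)) ≤ Real.log hh := Real.log_le_log (by positivity) hh1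
        rw [one_div, Real.log_inv] at h6
        have h7 : Real.log ((N : ℝ) + 1) ≤ Real.log N + 1 := by
          have h71 : Real.log ((N : ℝ) + 1) ≤ Real.log (N * Real.exp 1) := by
            refine Real.log_le_log (by positivity) ?_
            nlinarith
          rwa [Real.log_mul hN0.ne' (Real.exp_pos _).ne', Real.log_exp] at h71
        linarith
      have h9 := hshort (Real.log N + σ) hh hh0 hh2 (by linarith)
      have e2 : ∫ v in Set.Ioc (Real.log N) (Real.log ((N + 1 : ℕ) : ℝ)), ff q (v + σ) =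
          ∫ v in Set.Ioc (Real.log N + σ) (Real.log N + σ + hh), ff q v := by
        have hle : Real.log N ≤ Real.log ((N + 1 : ℕ) : ℝ) := by rw [hhd] at hh0; linarith
        rw [← intervalIntegral.integral_of_le hle, ← intervalIntegral.integral_of_le (by linarith)]
        rw [intervalIntegral.integral_comp_add_right (fun v => ff q v) σ]
        congr 1
        rw [hhd]; ring
      rw [e2]
      refine h9.trans ?_
      have h10 : Real.log q / (Real.log N + σ + Real.log hh) ≤ 2 / δ * w q := by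
        have hq0' : (0 : ℝ) < q := by linarith
        have h11 : 2 / δ * w q = Real.log q / (δ * q / 2) := by unfold w; field_simp
        rw [h11]
        have hq0 : (0 : ℝ) < q := by linarith
        exact div_le_div_of_nonneg_left hlq (by positivity) (by linarith)
      calc K1 * hh * (Real.log q / (Real.log N + σ + Real.log hh)) ≤ K1 * hh * (2 / δ * w q) :=
            mul_le_mul_of_nonneg_left h10 (mul_nonneg hK1.le hh0.le)
        _ = _ := by ring)
  rw [← hn] at hstep2
  have hstep3 := hb2 (Real.log A) (Real.log B) (by linarith) (by linarith)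
  have hwp := w_nonneg p
  have hwq := w_nonneg q
  rw [hcv]
  refine hstep1.trans (hstep2.trans ?_)
  have h12 : ∫ v in Set.Ioc (Real.log A) (Real.log B), ff p v ≤ 4 * K2 * w p := by
    refine hstep3.trans ?_
    have h13 : 1 / (p : ℝ) ≤ 1 := by rw [div_le_one (by linarith)]; linarith
    have h14 : Real.log B - Real.log A + 1 / (p : ℝ) ≤ 4 := by linarith
    have : K2 * (Real.log B - Real.log A + 1 / p) * (Real.log p / p) ≤ K2 * 4 * w p := by
      unfold w at hwp ⊢
      gcongr
    linarith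
  have h15 : 0 ≤ 2 * K1 / δ * w q := by positivity
  calc 2 * K1 / δ * w q * ∫ v in Set.Ioc (Real.log A) (Real.log B), ff p v ≤
        2 * K1 / δ * w q * (4 * K2 * w p) := mul_le_mul_of_nonneg_left h12 h15
    _ = _ := by ring

lemma one_bound_real {γ : ℝ} (hγ : 1 < γ) (b0 : ℝ) : ∃ K : ℝ, 0 < K ∧ ∃ P : ℕ, ∀ q ≥ P,
    ∫ t in Set.Ioc b0 (b0 + 1), ff q (Real.log γ * q + t) ≤ K * w q := by
  have ha : 0 < Real.log γ := Real.log_pos hγ
  obtain ⟨K, hK, hev⟩ := bounds (c := Real.log γ / 2) (by positivity)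
  have hlarge : ∀ᶠ p : ℕ in atTop, (|b0| + 1) * 2 / Real.log γ < p :=
    tendsto_natCast_atTop_atTop.eventually_gt_atTop _
  obtain ⟨P, hP⟩ := eventually_atTop.1 (hev.and (hlarge.and (eventually_ge_atTop 1)))
  refine ⟨2 * K, by positivity, P, fun q hq => ?_⟩
  obtain ⟨⟨_, h2, _, _⟩, h3, h4⟩ := hP q hq
  have hq1 : (1 : ℝ) ≤ q := by exact_mod_cast h4
  have hcv : ∫ t in Set.Ioc b0 (b0 + 1), ff q (Real.log γ * q + t) =
      ∫ v in Set.Ioc (Real.log γ * q + b0) (Real.log γ * q + (b0 + 1)), ff q v := by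
    rw [← intervalIntegral.integral_of_le (by linarith), ← intervalIntegral.integral_of_le (by linarith)]
    exact intervalIntegral.integral_comp_add_left (fun v => ff q v) (Real.log γ * q)
  rw [hcv]
  have hnb := neg_abs_le b0
  have h5 : (|b0| + 1) ≤ Real.log γ / 2 * q := by
    rw [div_lt_iff₀ ha] at h3
    linarith
  refine (h2 _ _ (by linarith) (by linarith)).trans ?_
  have h6 : 1 / (q : ℝ) ≤ 1 := by rw [div_le_one (by linarith)]; exact hq1
  have hw := w_nonneg q
  have h7 : (Real.log γ * q + (b0 + 1) - (Real.log γ * q + b0)) + 1 / (q : ℝ) ≤ 2 := by linarith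
  calc K * ((Real.log γ * q + (b0 + 1) - (Real.log γ * q + b0)) + 1 / q) * (Real.log q / q) ≤
        K * 2 * w q := by
        unfold w at hw ⊢
        gcongr
    _ = _ := by ring

/-- **Borel-Cantelli for pairs of levels in two bases.** -/
theorem two_ae {α γ δ : ℝ} (hα : 1 < α) (hγ : 1 < γ) (hδ : 0 < δ) {S : Set (ℕ × ℕ)}
    (hS : ∀ x ∈ S, 2 ≤ x.1 ∧ δ * max (x.1 : ℝ) x.2 ≤ Real.log γ * x.2 - Real.log α * x.1)
    (hsum : Summable (S.indicator (fun x : ℕ × ℕ => w x.1 * w x.2))) :
    ∀ᵐ t : ℝ, {x | x ∈ S ∧ 1 ≤ ff x.1 (Real.log α * x.1 + t) *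
      ff x.2 (Real.log γ * x.2 + t)}.Finite := by
  have ha : 0 < Real.log α := Real.log_pos hα
  obtain ⟨C, hC⟩ := exists_nat_ge (Real.log γ / Real.log α)
  refine ae_windows fun b0 => ?_
  refine pairs_gen' (C := C) (F1 := fun p t => ff p (Real.log α * p + t))
    (F2 := fun p t => ff p (Real.log γ * p + t))
    (fun p => (measurable_ff p).comp (measurable_id.const_add _))
    (fun p => (measurable_ff p).comp (measurable_id.const_add _))
    (fun _ _ => ff_nonneg _ _) (fun _ _ => ff_nonneg _ _) (fun _ _ => ff_le_one _ _)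
    (fun _ _ => ff_le_one _ _) (by linarith) (fun x hx => ⟨(hS x hx).1, ?_⟩)
    (one_bound_real hγ b0) ?_ hsum
  · have h1 := (hS x hx).2
    have h2 : 0 ≤ δ * max (x.1 : ℝ) x.2 := by positivity
    have h3 : (x.1 : ℝ) ≤ C * x.2 := by
      have h4 : Real.log α * x.1 ≤ Real.log γ * x.2 := by linarith
      have h5 : Real.log γ ≤ C * Real.log α := by
        rw [div_le_iff₀ ha] at hC
        exact hC
      have h6 : Real.log α * x.1 ≤ Real.log α * (C * x.2) := by
        calc Real.log α * x.1 ≤ Real.log γ * x.2 := h4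
          _ ≤ (C * Real.log α) * x.2 := by gcongr
          _ = _ := by ring
      exact le_of_mul_le_mul_left h6 ha
    exact_mod_cast h3
  · obtain ⟨K, hK, P, hP⟩ := two_bound (γ := γ) hα hδ b0
    exact ⟨K, hK, P, fun p hp q hq hpq => hP p hp q hq (hS _ hpq).2⟩

end Pool.Agent.X191.CP
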